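import Pool.Agent.H54.AW.Size

/-!
# Central projections and generalised comparability in an AW*-algebra
-/

set_option autoImplicit false
set_option linter.unusedSectionVars false

namespace Pool.Agent.H54.AW

variable {A : Type*} [CStarAlgebra A]

/-- central projections -/
def Cen (z : A) : Prop := P z ∧ ∀ a, z * a = a * z

theorem Cen.one : Cen (1 : A) := ⟨IsStarProjection.one A, fun a => by rw [one_mul, mul_one]⟩

theorem Cen.compl {z : A} (h : Cen z) : Cen (1 - z) :=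
  ⟨h.1.one_sub, fun a => by rw [sub_mul, mul_sub, one_mul, mul_one, h.2]⟩

theorem Cen.mul {z w : A} (h : Cen z) (h' : Cen w) : Cen (z * w) :=
  ⟨h.1.mul h'.1 (h.2 w), fun a => by rw [mul_assoc, h'.2, ← mul_assoc, h.2, mul_assoc]⟩

theorem Cen.proj {z p : A} (h : Cen z) (hp : P p) : P (z * p) := h.1.mul hp (h.2 p)

theorem Cen.mul_mul {z : A} (h : Cen z) (a b : A) : z * a * (z * b) = z * (a * b) := by
  rw [mul_assoc, ← mul_assoc a, ← h.2 a, mul_assoc z a b, ← mul_assoc z z, h.1.i]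

theorem Cen.star_mul {z : A} (h : Cen z) (a : A) : star (z * a) = z * star a := by
  rw [StarMul.star_mul, h.1.s, h.2]

theorem Cen.left {z : A} (h : Cen z) (a b : A) : z * a * b = z * (a * b) := mul_assoc _ _ _

theorem Cen.swap {z : A} (h : Cen z) (a b : A) : a * (z * b) = z * (a * b) := by
  rw [← mul_assoc, ← h.2, mul_assoc]

theorem Cen.split (z a : A) : z * a + (1 - z) * a = a := by
  rw [← add_mul, add_sub_cancel, one_mul]

theorem Cen.orth {z : A} (h : Cen z) (a b : A) : z * a * ((1 - z) * b) = 0 := by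
  rw [h.left, h.compl.swap, ← mul_assoc, mul_sub, mul_one, h.1.i, sub_self, zero_mul]

theorem Cen.orth' {z : A} (h : Cen z) (a b : A) : (1 - z) * a * (z * b) = 0 := by
  rw [mul_assoc, h.swap, ← mul_assoc, sub_mul, one_mul, h.1.i, sub_self, zero_mul]

theorem Cen.norm_le {z : A} (h : Cen z) (a : A) : ‖z * a‖ ≤ ‖a‖ := by
  calc ‖z * a‖ ≤ ‖z‖ * ‖a‖ := norm_mul_le _ _
    _ ≤ 1 * ‖a‖ := mul_le_mul_of_nonneg_right h.1.norm_le (norm_nonneg _)
    _ = ‖a‖ := one_mul _

theorem Sub.cmul {p q z : A} (hz : Cen z) (h : Sub p q) : Sub (z * p) (z * q) := by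
  obtain ⟨v, h1, h2⟩ := h
  exact ⟨z * v, by rw [hz.star_mul, hz.mul_mul, h1], by rw [hz.mul_mul, h2]⟩

theorem Sub.cmul_left {p q z : A} (hz : Cen z) (h : Sub p q) : Sub (z * p) q := by
  obtain ⟨v, h1, h2⟩ := h
  exact ⟨z * v, by rw [hz.star_mul, hz.mul_mul, h1], by rw [hz.swap, h2]⟩

theorem Sub.of_right {p q z : A} (hz : Cen z) (hq : P q) (h : Sub p (z * q)) : Sub p q :=
  h.mono (by rw [hz.swap, hq.i])

theorem Equ.cmul {p q z : A} (hz : Cen z) (h : Equ p q) : Equ (z * p) (z * q) := by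
  obtain ⟨v, h1, h2⟩ := h
  exact ⟨z * v, by rw [hz.star_mul, hz.mul_mul, h1], by rw [hz.star_mul, hz.mul_mul, h2]⟩

theorem PI.cmul {e z : A} (hz : Cen z) (h : PI e) : PI (z * e) := by
  obtain ⟨a, b, h1, h2, h3, h4, h5⟩ := h
  exact ⟨z * a, z * b, by rw [hz.star_mul, hz.mul_mul, h1], by rw [hz.star_mul, hz.mul_mul, h2],
    by rw [hz.star_mul, hz.mul_mul, h3, mul_zero], by rw [hz.mul_mul, h4],
    by rw [hz.mul_mul, h5]⟩

theorem Sub.glue {p q z : A} (hz : Cen z) (h1 : Sub (z * p) q) (h2 : Sub ((1 - z) * p) q) :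
    Sub p q := by
  obtain ⟨v, a1, a2⟩ := h1
  obtain ⟨w, b1, b2⟩ := h2
  refine ⟨z * v + (1 - z) * w, ?_, ?_⟩
  · rw [star_add, hz.star_mul, hz.compl.star_mul, add_mul, mul_add, mul_add, hz.mul_mul, hz.orth,
      hz.orth', hz.compl.mul_mul, a1, b1, add_zero, zero_add, ← mul_assoc, ← mul_assoc, hz.1.i,
      hz.compl.1.i, Cen.split]
  · rw [mul_add, hz.swap, hz.compl.swap, a2, b2]

theorem Equ.glue {p q z : A} (hz : Cen z) (h1 : Equ (z * p) (z * q))
    (h2 : Equ ((1 - z) * p) ((1 - z) * q)) : Equ p q := by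
  obtain ⟨v, a1, a2⟩ := h1
  obtain ⟨w, b1, b2⟩ := h2
  refine ⟨z * v + (1 - z) * w, ?_, ?_⟩
  · rw [star_add, hz.star_mul, hz.compl.star_mul, add_mul, mul_add, mul_add, hz.mul_mul, hz.orth,
      hz.orth', hz.compl.mul_mul, a1, b1, add_zero, zero_add, ← mul_assoc, ← mul_assoc, hz.1.i,
      hz.compl.1.i, Cen.split]
  · rw [star_add, hz.star_mul, hz.compl.star_mul, add_mul, mul_add, mul_add, hz.mul_mul, hz.orth,
      hz.orth', hz.compl.mul_mul, a2, b2, add_zero, zero_add, ← mul_assoc, ← mul_assoc, hz.1.i,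
      hz.compl.1.i, Cen.split]

/-- generalised comparability -/
theorem gcomp (hA : IsAWStar A) {e f : A} (he : P e) (hf : P f) :
    ∃ h, Cen h ∧ Sub (h * e) (h * f) ∧ Sub ((1 - h) * f) ((1 - h) * e) := by
  obtain ⟨e0, f0, he0, hf0, h1, h2, h3, h4⟩ := compare_gen hA he hf
  obtain ⟨h, hP, hc, g1, g2⟩ := exists_central hA (e - e0)
  have hC : Cen h := ⟨hP, hc⟩
  have k1 : h * e = h * e0 := by
    have := g1 1
    rw [mul_one, mul_sub, sub_eq_zero] at this
    exact this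
  have k2 : (f - f0) * h = f - f0 := g2 _ h4
  have k3 : (1 - h) * f = (1 - h) * f0 := by
    rw [← sub_eq_zero, ← mul_sub, sub_mul, one_mul, hC.2, k2, sub_self]
  refine ⟨h, hC, ?_, ?_⟩
  · rw [k1]
    exact ((Equ.cmul hC h3).sub (hC.proj he0)).mono (by rw [hC.mul_mul, h2])
  · rw [k3]
    exact ((Equ.cmul hC.compl h3.symm).sub (hC.compl.proj hf0)).mono (by
      rw [hC.compl.mul_mul, h1])

/-- a properly infinite projection which is the sum of two projections is, centrally, below one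
of them -/
theorem gbig_or_big (hA : IsAWStar A) {e g1 g2 : A} (he : P e) (hPI : PI e)
    (h1 : P g1) (h2 : P g2) (h12 : g1 * g2 = 0) (hE : Equ e (g1 + g2)) :
    ∃ z, Cen z ∧ Sub (z * e) g1 ∧ Sub ((1 - z) * e) g2 := by
  set f := g1 + g2 with hf
  have hfP : P f := h1.add h2 h12
  have h21 := h1.orth h2 h12
  have hfPI : PI f := hPI.equ he hE
  have hfg1 : f * g1 = g1 := by rw [hf, add_mul, h1.i, h21, add_zero]
  have hfg2 : f * g2 = g2 := by rw [hf, add_mul, h2.i, h12, zero_add]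
  obtain ⟨a, b, ha, hb, hab, hfa, hfb⟩ := id hfPI
  have hp : P (a * star a) := hfP.of_star ha
  have hq : P (b * star b) := hfP.of_star hb
  set p := a * star a with hpd
  set q := b * star b with hqd
  have hpq : p * q = 0 := by
    rw [hpd, hqd, mul_assoc, ← mul_assoc (star a), hab, zero_mul, mul_zero]
  have hqp := hp.orth hq hpq
  have hfp : f * p = p := by rw [hpd, ← mul_assoc, hfa]
  have hfq : f * q = q := by rw [hqd, ← mul_assoc, hfb]
  have hEp : Equ f p := ⟨a, ha, rfl⟩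
  have hEq : Equ f q := ⟨b, hb, rfl⟩
  -- g1 + g2 = 1 on p and q
  have hsp : g1 * p + g2 * p = p := by rw [← add_mul, hfp]
  have hsq : g1 * q + g2 * q = q := by rw [← add_mul, hfq]
  obtain ⟨q2, f2, a1, a2, a3, a4, a5, a6, a7, a8, a9⟩ := rplp hA hfP hfPI (x := g2 * q)
    (by rw [← mul_assoc, hfg2]) (by rw [mul_assoc, hq.swap hfP hfq])
  obtain ⟨p1, f1, b1, b2, b3, b4, b5, b6, b7, b8, b9⟩ := rplp hA hfP hfPI (x := g1 * p)
    (by rw [← mul_assoc, hfg1]) (by rw [mul_assoc, hp.swap hfP hfp])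
  -- `q2 ≤ q`
  have hq2 : q2 * q = q2 := by
    have := a8 (f - q) (by rw [mul_assoc, mul_sub, hq.i, hq.swap hfP hfq, sub_self, mul_zero])
    rw [mul_sub, a1.swap hfP a3, sub_eq_zero] at this
    exact this.symm
  have hp1 : p1 * p = p1 := by
    have := b8 (f - p) (by rw [mul_assoc, mul_sub, hp.i, hp.swap hfP hfp, sub_self, mul_zero])
    rw [mul_sub, b1.swap hfP b3, sub_eq_zero] at this
    exact this.symm
  have hq2' := a1.swap' hq hq2
  have hp1' := b1.swap' hp hp1
  have hq1P : P (q - q2) := a1.sub hq hq2'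
  have hp2P : P (p - p1) := b1.sub hp hp1'
  set q1 := q - q2 with hq1d
  set p2 := p - p1 with hp2d
  have hqq1 : q * q1 = q1 := by rw [hq1d, mul_sub, hq.i, hq2']
  have hpp2 : p * p2 = p2 := by rw [hp2d, mul_sub, hp.i, hp1']
  have hg2q1 : g2 * q1 = 0 := by
    have h3 : g2 * q * q1 = 0 := by
      rw [hq1d, mul_sub, a6, mul_assoc, hq.i, sub_self]
    rwa [mul_assoc, hqq1] at h3
  have hg1p2 : g1 * p2 = 0 := by
    have h3 : g1 * p * p2 = 0 := by
      rw [hp2d, mul_sub, b6, mul_assoc, hp.i, sub_self]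
    rwa [mul_assoc, hpp2] at h3
  have hg1q1 : g1 * q1 = q1 := by
    have : f * q1 = q1 := by rw [← hqq1, ← mul_assoc, hfq]
    rwa [hf, add_mul, hg2q1, add_zero] at this
  have hg2p2 : g2 * p2 = p2 := by
    have : f * p2 = p2 := by rw [← hpp2, ← mul_assoc, hfp]
    rwa [hf, add_mul, hg1p2, zero_add] at this
  have hg2f2 : g2 * f2 = f2 := by
    have := a9 (f - g2) (by rw [← mul_assoc, sub_mul, h2.i, hfg2, sub_self, zero_mul])
    rw [sub_mul, a4, sub_eq_zero] at this
    exact this.symm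
  have hg1f1 : g1 * f1 = f1 := by
    have := b9 (f - g1) (by rw [← mul_assoc, sub_mul, h1.i, hfg1, sub_self, zero_mul])
    rw [sub_mul, b4, sub_eq_zero] at this
    exact this.symm
  have hq1f1 : q1 * f1 = 0 := by
    apply b9
    have : q1 * g1 = q1 := hq1P.swap h1 hg1q1
    rw [← mul_assoc, this]
    have : q1 * q = q1 := hq1P.swap hq hqq1
    rw [← this, mul_assoc, hqp, mul_zero]
  have hp2f2 : p2 * f2 = 0 := by
    apply a9
    have : p2 * g2 = p2 := hp2P.swap h2 hg2p2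
    rw [← mul_assoc, this]
    have : p2 * p = p2 := hp2P.swap hp hpp2
    rw [← this, mul_assoc, hpq, mul_zero]
  obtain ⟨z, hz, k1, k2⟩ := gcomp hA hp2P hq1P
  refine ⟨z, hz, ?_, ?_⟩
  · have h3 : Sub (z * p1 + z * p2) (z * f1 + z * q1) :=
      Sub.add (hz.proj b2) (Sub.cmul hz (b5.sub b1)) k1
        (by rw [hz.mul_mul, hq1P.orth b2 hq1f1, mul_zero]) (by rw [hz.mul_mul, hq1f1, mul_zero])
    have h4 : z * p1 + z * p2 = z * p := by rw [← mul_add, hp2d]; congr 1; abel
    rw [h4] at h3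
    have h5 : g1 * (z * f1 + z * q1) = z * f1 + z * q1 := by
      rw [mul_add, hz.swap, hz.swap, hg1f1, hg1q1]
    exact (Sub.cmul hz ((hE.sub he).trans (hEp.sub hfP))).trans (h3.mono h5)
  · have hz' := hz.compl
    have h3 : Sub ((1 - z) * q2 + (1 - z) * q1) ((1 - z) * f2 + (1 - z) * p2) :=
      Sub.add (hz'.proj a2) (Sub.cmul hz' (a5.sub a1)) k2
        (by rw [hz'.mul_mul, hp2P.orth a2 hp2f2, mul_zero]) (by rw [hz'.mul_mul, hp2f2, mul_zero])
    have h4 : (1 - z) * q2 + (1 - z) * q1 = (1 - z) * q := by rw [← mul_add, hq1d]; congr 1; abel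
    rw [h4] at h3
    have h5 : g2 * ((1 - z) * f2 + (1 - z) * p2) = (1 - z) * f2 + (1 - z) * p2 := by
      rw [mul_add, hz'.swap, hz'.swap, hg2f2, hg2p2]
    exact (Sub.cmul hz' ((hE.sub he).trans (hEq.sub hfP))).trans (h3.mono h5)

/-- a property of central projections that may be checked on both pieces of a central
splitting -/
def Additive' (Q : A → Prop) : Prop :=
  ∀ z h, Cen z → Cen h → Q (z * h) → Q (z * (1 - h)) → Q z

theorem big_elim (hA : IsAWStar A) {e g1 g2 : A} (he : P e) (hPI : PI e) (h1 : P g1) (h2 : P g2)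
    (h12 : g1 * g2 = 0) {Q : A → Prop} (hQ : Additive' Q) {z : A} (hz : Cen z)
    (hS : Sub (z * e) (g1 + g2))
    (H1 : ∀ w, Cen w → z * w = w → Sub (w * e) g1 → Q w)
    (H2 : ∀ w, Cen w → z * w = w → Sub (w * e) g2 → Q w) : Q z := by
  obtain ⟨h, hh, s1, s2⟩ := gcomp hA he h1
  obtain ⟨k, hk, t1, t2⟩ := gcomp hA he h2
  refine hQ z h hz hh (H1 _ (hz.mul hh) (by rw [← mul_assoc, hz.1.i]) ?_) ?_
  · have := Sub.cmul_left hz s1
    rw [mul_assoc]
    exact Sub.of_right hh h1 this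
  set w1 := z * (1 - h) with hw1
  have hw1c : Cen w1 := hz.mul hh.compl
  have hzw1 : z * w1 = w1 := by rw [hw1, ← mul_assoc, hz.1.i]
  refine hQ w1 k hw1c hk (H2 _ (hw1c.mul hk) (by rw [← mul_assoc, hzw1]) ?_) ?_
  · have := Sub.cmul_left hw1c t1
    rw [mul_assoc]
    exact Sub.of_right hk h2 this
  set u := w1 * (1 - k) with hu
  have huc : Cen u := hw1c.mul hk.compl
  have hzu : z * u = u := by rw [hu, ← mul_assoc, hzw1]
  have r1 : Sub (u * g1) (u * e) := by
    have e1 : u * g1 = z * (1 - k) * ((1 - h) * g1) := by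
      rw [hu, hw1, mul_assoc z (1 - h), hh.compl.2, ← mul_assoc z, mul_assoc]
    have e2 : u * e = z * (1 - k) * ((1 - h) * e) := by
      rw [hu, hw1, mul_assoc z (1 - h), hh.compl.2, ← mul_assoc z, mul_assoc]
    rw [e1, e2]
    exact Sub.cmul (hz.mul hk.compl) s2
  have r2 : Sub (u * g2) (u * e) := by
    rw [hu, mul_assoc w1, mul_assoc w1]
    exact Sub.cmul hw1c t2
  have heP : P (u * e) := huc.proj he
  have hPIu : PI (u * e) := PI.cmul huc hPI
  have horth : u * g1 * (u * g2) = 0 := by rw [huc.mul_mul, h12, mul_zero]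
  have r3 : Sub (u * g1 + u * g2) (u * e) := PI.sub_add heP hPIu r1 r2
  have r4 : Sub (u * e) (u * g1 + u * g2) := by
    have := Sub.cmul huc hS
    rw [← mul_assoc, huc.2 z, hzu, mul_add] at this
    exact this
  have hEq : Equ (u * e) (u * g1 + u * g2) :=
    schroeder' hA heP ((huc.proj h1).add (huc.proj h2) horth) r4 r3
  obtain ⟨y, hy, y1, y2⟩ := gbig_or_big hA heP hPIu (huc.proj h1) (huc.proj h2) horth hEq
  refine hQ u y huc hy (H1 _ (huc.mul hy) (by rw [← mul_assoc, hzu]) ?_)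
    (H2 _ (huc.mul hy.compl) (by rw [← mul_assoc, hzu]) ?_)
  · rw [huc.2 y, mul_assoc]
    exact Sub.of_right huc h1 y1
  · rw [huc.2 (1 - y), mul_assoc]
    exact Sub.of_right huc h2 y2

theorem big_elim_sum (hA : IsAWStar A) {e : A} (he : P e) (hPI : PI e) {ι : Type*}
    (I : Finset ι) {d : ι → A} (h1 : ∀ i, P (d i)) (h2 : ∀ i j, i ≠ j → d i * d j = 0)
    {Q : A → Prop} (hQ : Additive' Q) {z : A} (hz : Cen z)
    (H0 : ∀ w, Cen w → z * w = w → w * e = 0 → Q w)
    (hS : Sub (z * e) (∑ i ∈ I, d i))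
    (H : ∀ i ∈ I, ∀ w, Cen w → z * w = w → Sub (w * e) (d i) → Q w) : Q z := by
  classical
  induction I using Finset.induction_on generalizing z with
  | empty =>
    apply H0 z hz hz.1.i
    rw [Finset.sum_empty] at hS
    obtain ⟨v, hv, hv'⟩ := hS
    rw [zero_mul] at hv'
    rw [← hv, ← hv', mul_zero]
  | insert i I hi ih =>
    have hDP : P (∑ i ∈ I, d i) := sum_proj I h1 h2
    have horth : d i * ∑ j ∈ I, d j = 0 := by
      rw [Finset.mul_sum]
      apply Finset.sum_eq_zero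
      intro j hj
      exact h2 i j (fun h => hi (by rw [h]; exact hj))
    rw [Finset.sum_insert hi] at hS
    refine big_elim hA he hPI (h1 i) hDP horth hQ hz hS ?_ ?_
    · intro w hw hzw hs
      exact H i (Finset.mem_insert_self i I) w hw hzw hs
    · intro w hw hzw hs
      refine ih hw ?_ hs ?_
      · intro w' hw' hww' h0
        refine H0 w' hw' ?_ h0
        rw [← hww', ← mul_assoc, hzw]
      · intro j hj w' hw' hww' hs'
        refine H j (Finset.mem_insert_of_mem hj) w' hw' ?_ hs'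
        rw [← hww', ← mul_assoc, hzw]

end Pool.Agent.H54.AW
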