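import Pool.Agent.H54.AWG.Halve
import Pool.Agent.H54.AW.Finite

/-!
# Finite corners are clean (no factor hypothesis)
-/

set_option autoImplicit false
set_option linter.unusedSectionVars false

namespace Pool.Agent.H54.AW

universe u

variable {A : Type u} [CStarAlgebra A]

theorem gfin_compl (hA : IsAWStar A) {f d q : A} (hf : P f)
    (hfin : ¬ Infinite' f) (hd : P d) (hq : P q) (hfd : f * d = d) (hfq : f * q = q)
    (hE : Equ d q) : Equ (f - d) (f - q) := by
  have hd' : P (f - d) := hd.sub hf hfd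
  have hq' : P (f - q) := hq.sub hf hfq
  obtain ⟨h, hh, s1, s2⟩ := gcomp hA hd' hq'
  have key : ∀ c, Cen c → ∀ d q, P d → P q → f * d = d → f * q = q → Equ d q →
      Sub (c * (f - d)) (c * (f - q)) → Equ (c * (f - d)) (c * (f - q)) := by
    intro c hc d q hd hq hfd hfq hE hs
    have hcf : P (c * f) := hc.proj hf
    have hfinc : ¬ Infinite' (c * f) := fin_sub hf hcf (by rw [hc.swap, hf.i]) hfin
    have := fin_compl_aux hcf hfinc (hc.proj hd) (hc.proj hq) (by rw [hc.mul_mul, hfd])
      (by rw [hc.mul_mul, hfq]) (Equ.cmul hc hE) (by rw [← mul_sub, ← mul_sub]; exact hs)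
    rwa [← mul_sub, ← mul_sub] at this
  exact Equ.glue hh (key h hh d q hd hq hfd hfq hE s1)
    (key (1 - h) hh.compl q d hq hd hfq hfd hE.symm s2).symm

/-- approximate polar alignment in a finite corner -/
theorem gexists_align (hA : IsAWStar A) {p q : A} (hp : P p)
    (hq : P q) (hfin : ¬ Infinite' p) (hE : Equ p q) :
    ∃ v x0 g, star v * v = p ∧ v * star v = q ∧ x0 = star g * g ∧ p * x0 = x0 ∧ x0 * p = x0 ∧
      ‖p * v - x0‖ ≤ 1 / 4 := by
  obtain ⟨v0, hv1, hv2⟩ := hE
  have hv0p := mul_of_star_mul hp hv1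
  have hv0n := norm_le_one_of_star hp hv1
  set x1 := p * v0 with hx1
  have hpx1 : p * x1 = x1 := by rw [hx1, ← mul_assoc, hp.i]
  have hx1p : x1 * p = x1 := by rw [hx1, mul_assoc, hv0p]
  obtain ⟨d, m, hd, hpd, -, -, -, hm, -, hn⟩ := cut hA x1 hp (ε := 1 / 4) (by norm_num)
  obtain ⟨w1, c, c', g1, g2, g3, g4, g5, g6, g7, -, -, g, hg⟩ := polar hd hm
  have hdp := hd.swap hp hpd
  have hpw1 : p * w1 = w1 := by rw [g2, ← mul_assoc, hpx1]
  have hw1d := mul_of_star_mul hd g1
  have hq1 : P (w1 * star w1) := hd.of_star g1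
  have hpq1 : p * (w1 * star w1) = w1 * star w1 := by rw [← mul_assoc, hpw1]
  obtain ⟨w2, k1, k2⟩ := gfin_compl hA hp hfin hd hq1 hpd hpq1 ⟨w1, g1, rfl⟩
  have hd' : P (p - d) := hd.sub hp hpd
  have hw2d := mul_of_star_mul hd' k1
  have hddz : d * (p - d) = 0 := by rw [mul_sub, hdp, hd.i, sub_self]
  have hddz' : (p - d) * d = 0 := hd.orth hd' hddz
  have hw12 : w1 * star w2 = 0 := by
    rw [← hw1d, ← hw2d, star_mul, hd'.s, mul_assoc, ← mul_assoc d, hddz, zero_mul, mul_zero]
  have hw21 : w2 * star w1 = 0 := by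
    have := congrArg star hw12
    rwa [star_mul, star_star, star_zero] at this
  set w := w1 + w2 with hw
  have hwws : w * star w = p := by
    rw [hw, star_add, add_mul, mul_add, mul_add, hw12, hw21, k2]; abel
  have hq1w1 : w1 * star w1 * w1 = w1 := by rw [mul_assoc, g1, hw1d]
  have hq2w2 : (p - w1 * star w1) * w2 = w2 := by rw [← k2, mul_assoc, k1, hw2d]
  have hw12' : star w1 * w2 = 0 := by
    rw [← hq1w1, ← hq2w2, star_mul, hq1.s, mul_assoc, ← mul_assoc (w1 * star w1), mul_sub,
      hq1.swap hp hpq1, hq1.i, sub_self, zero_mul, mul_zero]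
  have hw21' : star w2 * w1 = 0 := by
    have := congrArg star hw12'
    rwa [star_mul, star_star, star_zero] at this
  have hwsw : star w * w = p := by
    rw [hw, star_add, add_mul, mul_add, mul_add, g1, k1, hw12', hw21']; abel
  have hws1 : star w1 * p = star w1 := by
    have := congrArg star hpw1
    rwa [star_mul, hp.s] at this
  refine ⟨v0 * star w, w1 * c' * star w1, g * star w1, ?_, ?_, ?_, ?_, ?_, ?_⟩
  · rw [star_mul, star_star, mul_assoc, ← mul_assoc (star v0), hv1]
    have : p * star w = star w := by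
      have h1 := mul_of_star_mul hp hwsw
      have := congrArg star h1
      rwa [star_mul, hp.s] at this
    rw [this, hwws]
  · rw [star_mul, star_star, mul_assoc, ← mul_assoc (star w), hwsw, ← mul_assoc, hv0p, hv2]
  · rw [hg, star_mul, star_star]; simp only [mul_assoc]
  · rw [← mul_assoc, ← mul_assoc, hpw1]
  · rw [mul_assoc, hws1]
  · have e1 : p * (v0 * star w) - w1 * c' * star w1 = x1 * (p - d) * star w2 := by
      have s1 : x1 * star w1 = w1 * c' * star w1 := by
        have : d * star w1 = star w1 := by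
          have := congrArg star hw1d
          rwa [star_mul, hd.s] at this
        rw [← g3, mul_assoc x1 d, this]
      have s2 : (p - d) * star w2 = star w2 := by
        have := congrArg star hw2d
        rwa [star_mul, hd'.s] at this
      rw [← mul_assoc, ← hx1, hw, star_add, mul_add, s1, mul_assoc x1, s2]
      abel
    rw [e1]
    have hw2n : ‖star w2‖ ≤ 1 := by rw [norm_star]; exact norm_le_one_of_star hd' k1
    calc ‖x1 * (p - d) * star w2‖ ≤ ‖x1 * (p - d)‖ * ‖star w2‖ := norm_mul_le _ _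
      _ ≤ (1 / 4) * 1 := mul_le_mul hn hw2n (norm_nonneg _) (by norm_num)
      _ = 1 / 4 := by norm_num

/-- elements of finite corners are clean -/
theorem gclean_of_finite (hA : IsAWStar A) {e S : A} (he : P e)
    (hfin : ¬ Infinite' e) (hS1 : e * S = S) (hS2 : S * e = S) : CleanIn e S := by
  obtain ⟨d, m, hd, hed, -, -, -, hm, -, hn⟩ := cut hA S he (ε := 1 / 8) (by norm_num)
  obtain ⟨w0, c, c', g1, g2, g3, g4, g5, g6, g7, g8, g9, -⟩ := polar hd hm
  have hde := hd.swap he hed
  have hq0 : P (w0 * star w0) := hd.of_star g1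
  set q0 := w0 * star w0 with hq0d
  have heq0 : e * q0 = q0 := by
    rw [hq0d, ← mul_assoc, g2, ← mul_assoc, hS1]
  have hE : Equ (e - d) (e - q0) := gfin_compl hA he hfin hd hq0 hed heq0 ⟨w0, g1, rfl⟩
  have hp : P (e - d) := hd.sub he hed
  have hq : P (e - q0) := hq0.sub he heq0
  set p := e - d with hpd
  set q := e - q0 with hqd
  clear_value p q
  have hep : e * p = p := by rw [hpd, mul_sub, he.i, hed]
  have heq : e * q = q := by rw [hqd, mul_sub, he.i, heq0]
  have hpe := hp.swap he hep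
  have hqe := hq.swap he heq
  have hdp : d * p = 0 := by rw [hpd, mul_sub, hde, hd.i, sub_self]
  have hpd0 : p * d = 0 := hd.orth hp hdp
  have hq0q : q0 * q = 0 := by rw [hqd, mul_sub, hq0.swap he heq0, hq0.i, sub_self]
  have hqq0 : q * q0 = 0 := hq0.orth hq hq0q
  have hfinp : ¬ Infinite' p := fin_sub he hp hep hfin
  obtain ⟨v, x0, g, v1, v2, x1, x2, x3, x4⟩ := gexists_align hA hp hq hfinp hE
  have hvp := mul_of_star_mul hp v1
  have hqv : q * v = v := by rw [← v2, mul_assoc, v1, hvp]
  have hvn := norm_le_one_of_star hp v1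
  have hpvs : p * star v = star v := by
    have := congrArg star hvp; rwa [star_mul, hp.s] at this
  have hsvq : star v * q = star v := by
    have := congrArg star hqv; rwa [star_mul, hq.s] at this
  have hx0s : star x0 = x0 := by rw [x1, star_mul, star_star]
  -- γ
  set γ := p + (1 / 2 : ℂ) • v with hγ
  have hγp : γ * p = γ := by rw [hγ, add_mul, hp.i, smul_mul_assoc, hvp]
  have heγ : e * γ = γ := by
    have : e * v = v := by rw [← hqv, ← mul_assoc, heq]
    rw [hγ, mul_add, hep, mul_smul_comm, this]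
  have hpγ : p * γ = p + (1 / 2 : ℂ) • (p * v) := by rw [hγ, mul_add, hp.i, mul_smul_comm]
  have hhalf : ‖(1 / 2 : ℂ)‖ = 1 / 2 := by norm_num
  have hpvn : ‖p * v‖ ≤ 1 := by
    calc ‖p * v‖ ≤ ‖p‖ * ‖v‖ := norm_mul_le _ _
      _ ≤ 1 * 1 := mul_le_mul hp.norm_le hvn (norm_nonneg _) (by norm_num)
      _ = 1 := by norm_num
  obtain ⟨n, n1, n2, n3, n4⟩ := exists_left_inv_of_small hp (d := (1 / 2 : ℂ) • (p * v))
    (by rw [mul_smul_comm, ← mul_assoc, hp.i]) (by rw [smul_mul_assoc, mul_assoc, hvp])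
    (by rw [norm_smul, hhalf]; linarith)
  rw [← hpγ] at n3 n4
  have hison : Iso p p n := ⟨n1, n2, p * γ, by rw [← mul_assoc, hp.i], by rw [mul_assoc, hγp],
    n4, n3⟩
  -- the main invertible element
  obtain ⟨r, r1, r2, r3, r4, r5⟩ := pos_half hp x1 x2 x3
  set K := q * γ - q * S * (p * γ) with hK
  have hpγn : ‖p * γ‖ ≤ 3 / 2 := by
    rw [hpγ]
    calc ‖p + (1 / 2 : ℂ) • (p * v)‖ ≤ ‖p‖ + ‖(1 / 2 : ℂ) • (p * v)‖ := norm_add_le _ _
      _ ≤ 1 + 1 / 2 := by
          apply add_le_add hp.norm_le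
          rw [norm_smul, hhalf]; linarith
      _ = 3 / 2 := by norm_num
  have hisoK : Iso p q K := by
    set δ := v * star (p * v - x0) - q * S * (p * γ) with hδ
    have hKeq : K = v * (x0 + (1 / 2 : ℂ) • p) + δ := by
      have h1 : q * p = v * star (p * v) := by
        rw [star_mul, hp.s, ← mul_assoc, v2]
      have h2 : v * star (p * v - x0) = v * star (p * v) - v * x0 := by
        rw [star_sub, hx0s, mul_sub]
      rw [hK, hδ, h2, ← h1, hγ]
      simp only [mul_add, mul_smul_comm, hqv, hvp]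
      abel
    rw [hKeq]
    apply Iso.perturb (y := r * star v)
    · rw [← mul_assoc, hqv]
    · rw [mul_assoc, add_mul, x3, smul_mul_assoc, hp.i]
    · rw [← mul_assoc, r1]
    · rw [mul_assoc, hsvq]
    · rw [mul_assoc, ← mul_assoc (star v), v1]
      have : p * (x0 + (1 / 2 : ℂ) • p) = x0 + (1 / 2 : ℂ) • p := by
        rw [mul_add, x2, mul_smul_comm, hp.i]
      rw [this, r3]
    · calc v * (x0 + (1 / 2 : ℂ) • p) * (r * star v) =
          v * ((x0 + (1 / 2 : ℂ) • p) * r) * star v := by simp only [mul_assoc]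
        _ = q := by rw [r4, hvp, v2]
    · rw [hδ, mul_sub, ← mul_assoc, hqv]
      simp only [← mul_assoc, hq.i]
    · have h3 : star (p * v - x0) * p = star (p * v - x0) := by
        have h4 : p * (p * v - x0) = p * v - x0 := by rw [mul_sub, ← mul_assoc, hp.i, x2]
        have := congrArg star h4
        rwa [star_mul, hp.s] at this
      rw [hδ, sub_mul, mul_assoc, h3, mul_assoc, mul_assoc p, hγp]
    · have b1 : ‖v * star (p * v - x0)‖ ≤ 1 / 4 := by
        calc _ ≤ ‖v‖ * ‖star (p * v - x0)‖ := norm_mul_le _ _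
          _ ≤ 1 * (1 / 4) := by
              apply mul_le_mul hvn _ (norm_nonneg _) (by norm_num)
              rw [norm_star]; exact x4
          _ = 1 / 4 := by norm_num
      have b2 : ‖q * S * (p * γ)‖ ≤ 3 / 16 := by
        have e1 : q * S * (p * γ) = q * ((S * p) * (p * γ)) := by
          simp only [mul_assoc, re hp.i]
        rw [e1]
        have b3 : ‖(S * p) * (p * γ)‖ ≤ (1 / 8) * (3 / 2) :=
          (norm_mul_le _ _).trans (mul_le_mul hn hpγn (norm_nonneg _) (by norm_num))
        have b4 : ‖q * ((S * p) * (p * γ))‖ ≤ 1 * ((1 / 8) * (3 / 2)) :=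
          (norm_mul_le _ _).trans (mul_le_mul hq.norm_le b3 (norm_nonneg _) (by norm_num))
        linarith
      have b5 : ‖δ‖ ≤ 1 / 4 + 3 / 16 := (norm_sub_le _ _).trans (add_le_add b1 b2)
      have b6 : ‖r * star v‖ ≤ 2 * 1 := by
        refine (norm_mul_le _ _).trans (mul_le_mul r5 ?_ (norm_nonneg _) (by norm_num))
        rw [norm_star]; exact hvn
      calc ‖r * star v * δ‖ ≤ ‖r * star v‖ * ‖δ‖ := norm_mul_le _ _
        _ ≤ (2 * 1) * (1 / 4 + 3 / 16) := mul_le_mul b6 b5 (norm_nonneg _) (by norm_num)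
        _ < 1 := by norm_num
  have hisoKn : Iso p q (K * n) := hison.comp hisoK
  have hnd : n * d = 0 := by rw [← n2, mul_assoc, hpd0, mul_zero]
  have hγn : (p * γ) * n = p := n4
  have hKn : K * n = q * (γ * n) - q * S * p := by
    rw [hK, sub_mul, mul_assoc q γ, mul_assoc (q * S), hγn]
  refine ⟨γ * n, ?_, ?_, ?_, ?_⟩
  · calc γ * n * (γ * n) = γ * (n * (γ * n)) := by rw [mul_assoc]
      _ = γ * (n * p * (γ * n)) := by rw [n2]
      _ = γ * (n * ((p * γ) * n)) := by simp only [mul_assoc]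
      _ = γ * n := by rw [hγn, n2]
  · rw [← mul_assoc, heγ]
  · have : n * e = n := by rw [← n2, mul_assoc, hpe]
    rw [mul_assoc, this]
  · -- invertibility
    have hc'q : Iso d q0 (S * d) := by
      have h1 : Iso d q0 w0 := iso_of_pisom hd g1
      have h2 : Iso d d c' := ⟨g6, g7, c, g4, g5, g8, g9⟩
      have := h2.comp h1
      rwa [← g3] at this
    have ht := Iso.triangular (z := q0 * (S - γ * n) * p) hc'q hisoKn.neg hdp hpd0 hq0q hqq0
      (by simp only [← mul_assoc, hq0.i]) (by rw [mul_assoc, hp.i])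
    have e1 : d + p = e := by rw [hpd]; abel
    have e2 : q0 + q = e := by rw [hqd]; abel
    rw [e1, e2] at ht
    have e3 : S * d + -(K * n) + q0 * (S - γ * n) * p = S - γ * n := by
      have f1 : γ * n * p = γ * n := by rw [mul_assoc, n2]
      have f2 : e * (γ * n) = γ * n := by rw [← mul_assoc, heγ]
      have f3 : q0 * (S - γ * n) * p = q0 * S * p - q0 * (γ * n) := by
        rw [mul_sub, sub_mul, mul_assoc q0 (γ * n), f1]
      have f4 : q * (γ * n) = γ * n - q0 * (γ * n) := by rw [hqd, sub_mul, f2]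
      have f5 : q * S * p = S * p - q0 * S * p := by
        rw [hqd, sub_mul, sub_mul, hS1]
      have f6 : S * d + S * p = S := by rw [← mul_add, e1, hS2]
      rw [hKn, f3, f4, f5]
      calc S * d + -(γ * n - q0 * (γ * n) - (S * p - q0 * S * p)) +
          (q0 * S * p - q0 * (γ * n)) = (S * d + S * p) - γ * n := by abel
        _ = S - γ * n := by rw [f6]
    rwa [e3] at ht

end Pool.Agent.H54.AW
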