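import Pool.Agent.H54.AWG.Central

/-!
# Every projection is, centrally, the sum of a finite and a properly infinite one
-/

set_option autoImplicit false
set_option linter.unusedSectionVars false

namespace Pool.Agent.H54.AW

variable {A : Type*} [CStarAlgebra A]

/-- A projection which is an infinite sum of copies of `g` plus a remainder below `g` is properly
infinite. -/
theorem PI_of_homog (hA : IsAWStar A) {e g G : A} (he : P e) {J : Type*} [Infinite J]
    {s : J → A} (hgP : ∀ j, P (s j)) (hgo : ∀ i j, i ≠ j → s i * s j = 0)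
    (hg : ∀ j, Equ g (s j)) (hgp : P g) (hG : IsSup s G) (heG : e * G = G)
    (hsub : Sub (e - G) g) : PI e := by
  obtain ⟨φ⟩ := exists_sum_equiv J
  let a : J → A := fun j => s (φ (Sum.inl j))
  let b : J → A := fun j => s (φ (Sum.inr j))
  have hge : ∀ i j : J, Equ (s i) (s j) := fun i j => (hg i).symm.trans (hgP i) (hg j)
  have hao : ∀ i j, i ≠ j → a i * a j = 0 := fun i j h => hgo _ _ (fun h' => h (by
    have := φ.injective h'; exact Sum.inl_injective this))
  have hbo : ∀ i j, i ≠ j → b i * b j = 0 := fun i j h => hgo _ _ (fun h' => h (by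
    have := φ.injective h'; exact Sum.inr_injective this))
  have habo : ∀ i j, a i * b j = 0 := fun i j => hgo _ _ (fun h' => by
    have := φ.injective h'; exact Sum.inl_ne_inr this)
  obtain ⟨Ga, hGa⟩ := exists_isSup hA a (fun j => hgP _) hao
  obtain ⟨Gb, hGb⟩ := exists_isSup hA b (fun j => hgP _) hbo
  have hGab : Ga * Gb = 0 := hGa.orth_sup hGb (fun j => hgP _) habo
  have hsum : IsSup (Sum.elim a b) (Ga + Gb) := hGa.sum_elim hGb hGab
  have hG' : IsSup s (Ga + Gb) := by
    have := hsum.reindex φ.symm φ.symm.surjective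
    convert this using 1
    funext j
    obtain ⟨k, rfl⟩ := φ.surjective j
    rw [Equiv.symm_apply_apply]
    cases k <;> rfl
  have hGG : G = Ga + Gb := hG.unique hG'
  subst hGG
  have hEab : Equ Ga Gb := Equ.sup_orth hA (fun j => hgP _) hao hbo habo
    (fun j => hge _ _) hGa hGb
  -- split `Ga`
  let aa : J → A := fun j => a (φ (Sum.inl j))
  let ab : J → A := fun j => a (φ (Sum.inr j))
  have haao : ∀ i j, i ≠ j → aa i * aa j = 0 := fun i j h => hao _ _ (fun h' => h (by
    have := φ.injective h'; exact Sum.inl_injective this))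
  have habo' : ∀ i j, i ≠ j → ab i * ab j = 0 := fun i j h => hao _ _ (fun h' => h (by
    have := φ.injective h'; exact Sum.inr_injective this))
  have haab : ∀ i j, aa i * ab j = 0 := fun i j => hao _ _ (fun h' => by
    have := φ.injective h'; exact Sum.inl_ne_inr this)
  obtain ⟨Gaa, hGaa⟩ := exists_isSup hA aa (fun j => hgP _) haao
  obtain ⟨Gab', hGab'⟩ := exists_isSup hA ab (fun j => hgP _) habo'
  have ho2 : Gaa * Gab' = 0 := hGaa.orth_sup hGab' (fun j => hgP _) haab
  have hsum2 : IsSup a (Gaa + Gab') := by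
    have := (hGaa.sum_elim hGab' ho2).reindex φ.symm φ.symm.surjective
    convert this using 1
    funext j
    obtain ⟨k, rfl⟩ := φ.surjective j
    rw [Equiv.symm_apply_apply]
    cases k <;> rfl
  have hGaeq : Ga = Gaa + Gab' := hGa.unique hsum2
  have hE1 : Equ Gaa Gb := Equ.sup_orth hA (fun j => hgP _) haao hbo (fun i j => habo _ _)
    (fun j => hge _ _) hGaa hGb
  have hE2 : Equ Gab' Gb := Equ.sup_orth hA (fun j => hgP _) habo' hbo (fun i j => habo _ _)
    (fun j => hge _ _) hGab' hGb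
  have hEG : Equ Ga (Ga + Gb) := by
    have := Equ.add hGaa.proj hGab'.proj hGa.proj (hE1.trans hGaa.proj hEab.symm) hE2 ho2 hGab
    rwa [← hGaeq] at this
  have hGP : P (Ga + Gb) := hG.proj
  have hh : P (e - (Ga + Gb)) := hGP.sub he heG
  obtain ⟨j0⟩ : Nonempty J := inferInstance
  have hsub2 : Sub (e - (Ga + Gb)) Gb := by
    have h1 : Sub g (b j0) := (hg (φ (Sum.inr j0))).sub hgp
    exact (hsub.trans h1).mono (hGb.le j0)
  have hGba : Gb * Ga = 0 := hGa.proj.orth hGb.proj hGab
  have hsub3 : Sub e (Ga + Gb) := by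
    have := Sub.add hGa.proj (hEG.symm.sub hGP) hsub2 hGab hGba
    rwa [add_sub_cancel] at this
  have hfin : Equ e (Ga + Gb) := schroeder hA he hGP heG hsub3
  have hEa : Equ e Ga := hfin.trans he hEG.symm
  have hEb : Equ e Gb := hEa.trans he hEab
  obtain ⟨x, hx1, hx2⟩ := hEa
  obtain ⟨y, hy1, hy2⟩ := hEb
  have hxG : Ga * x = x := by rw [← hx2, mul_assoc, hx1, mul_of_star_mul he hx1]
  have hyG : Gb * y = y := by rw [← hy2, mul_assoc, hy1, mul_of_star_mul he hy1]
  have heGa : e * Ga = Ga := by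
    have : (Ga + Gb) * Ga = Ga := by rw [add_mul, hGa.proj.i, hGba, add_zero]
    rw [← this, ← mul_assoc, heG]
  have heGb : e * Gb = Gb := by
    have : (Ga + Gb) * Gb = Gb := by rw [add_mul, hGb.proj.i, hGab, zero_add]
    rw [← this, ← mul_assoc, heG]
  refine ⟨x, y, hx1, hy1, ?_, ?_, ?_⟩
  · rw [← hxG, ← hyG, star_mul, hGa.proj.s, mul_assoc, ← mul_assoc Ga, hGab, zero_mul, mul_zero]
  · rw [← hxG, ← mul_assoc, heGa]
  · rw [← hyG, ← mul_assoc, heGb]

/-- multiplying a supremum by a central projection -/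
theorem IsSup.cmul {ι : Type*} {g : ι → A} {s z : A} (h : IsSup g s) (hz : Cen z) :
    IsSup (fun i => z * g i) (z * s) := by
  refine ⟨hz.proj h.proj, fun i => by rw [hz.mul_mul, h.le], ?_⟩
  intro y hy
  have h1 : y * z * s = 0 := h.ann _ (fun i => by rw [mul_assoc]; exact hy i)
  rw [← mul_assoc]; exact h1

theorem equ_cne {g p : A} (h : Equ g p) (hg : g ≠ 0) : p ≠ 0 := by
  rintro rfl
  exact hg (equ_zero h)

/-- an infinite projection is properly infinite on some central part -/
theorem exists_cPI (hA : IsAWStar A) {e : A} (he : P e) (hinf : Infinite' e) :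
    ∃ z, Cen z ∧ z * e ≠ 0 ∧ PI (z * e) := by
  obtain ⟨v, hv, hev, hne⟩ := hinf
  have hf : P (v * star v) := he.of_star hv
  have hg : P (e - v * star v) := hf.sub he (by rw [← mul_assoc, hev])
  have hg0 : e - v * star v ≠ 0 := fun h => hne (sub_eq_zero.1 h).symm
  set g := e - v * star v with hgd
  let G0 : ℕ → A := fun n => v ^ n * g * star (v ^ n * g)
  have hG0P : ∀ n, P (G0 n) := shift_proj he hv hev
  have hG0e : ∀ n, Equ g (G0 n) := fun n => ⟨v ^ n * g, shift_self he hv hev n, rfl⟩
  have hG0o : ∀ m n, m ≠ n → G0 m * G0 n = 0 := shift_proj_orth he hv hev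
  have hne0 : ∀ p, Equ g p → p ≠ 0 := fun p h => equ_cne h hg0
  obtain ⟨S, hXS, hS⟩ := zorn_subset_nonempty
    {S : Set A | (∀ p ∈ S, P p ∧ e * p = p ∧ Equ g p) ∧ (∀ p ∈ S, ∀ q ∈ S, p ≠ q → p * q = 0)}
    (by
      intro c hc hchain _
      refine ⟨⋃₀ c, ⟨?_, ?_⟩, fun s hs => Set.subset_sUnion_of_mem hs⟩
      · rintro x ⟨s, hs, hx⟩
        exact (hc hs).1 x hx
      · rintro x ⟨s, hs, hx⟩ y ⟨t, ht, hy⟩
        rcases hchain.total hs ht with h | h
        · exact (hc ht).2 x (h hx) y hy
        · exact (hc hs).2 x hx y (h hy)) (Set.range G0)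
    ⟨by
      rintro _ ⟨n, rfl⟩
      refine ⟨hG0P n, ?_, hG0e n⟩
      simp only [G0]
      rw [← mul_assoc, shift_aux he hv hev], by
      rintro _ ⟨m, rfl⟩ _ ⟨n, rfl⟩ h
      exact hG0o m n (fun h' => h (by rw [h']))⟩
  have hS1 := hS.prop.1
  have hS2 := hS.prop.2
  have hinj : Function.Injective G0 := by
    intro m n h
    by_contra hne
    have h1 := hG0o m n hne
    rw [← h, (hG0P m).i] at h1
    exact hne0 _ (hG0e m) h1
  have : Infinite S := by
    have : (Set.range G0).Infinite := Set.infinite_range_of_injective hinj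
    exact (this.mono hXS).to_subtype
  have hgP : ∀ j : S, P (j : A) := fun j => (hS1 _ j.2).1
  have hgo : ∀ i j : S, i ≠ j → (i : A) * (j : A) = 0 := fun i j h =>
    hS2 _ i.2 _ j.2 (fun h' => h (Subtype.ext h'))
  obtain ⟨G, hG⟩ := exists_isSup hA (fun j : S => (j : A)) hgP hgo
  have heG : e * G = G := hG.le_of (fun j => (hS1 _ j.2).2.1)
  have hh : P (e - G) := hG.proj.sub he heG
  obtain ⟨z, hz, s1, s2⟩ := gcomp hA hh hg
  have hz0 : z * g ≠ 0 := by
    intro h0
    have h1 : (1 - z) * g = g := by rw [sub_mul, one_mul, h0, sub_zero]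
    rw [h1] at s2
    have s3 : Sub g (e - G) := Sub.of_right hz.compl hh s2
    rw [Sub.iff hg] at s3
    obtain ⟨g', hg', h2, h3⟩ := s3
    have hGg : G * g' = 0 := by
      rw [← h2, ← mul_assoc, mul_sub, hG.proj.i, hG.proj.swap he heG, sub_self, zero_mul]
    have horth : ∀ p ∈ S, p * g' = 0 := by
      intro p hp
      have : p * G = p := (hS1 p hp).1.swap hG.proj (hG.le ⟨p, hp⟩)
      rw [← this, mul_assoc, hGg, mul_zero]
    have hmem : S ∪ {g'} ∈ {S : Set A | (∀ p ∈ S, P p ∧ e * p = p ∧ Equ g p) ∧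
        (∀ p ∈ S, ∀ q ∈ S, p ≠ q → p * q = 0)} := by
      refine ⟨?_, ?_⟩
      · rintro p (hp | rfl)
        · exact hS1 p hp
        · refine ⟨hg', ?_, h3⟩
          rw [← h2, ← mul_assoc, mul_sub, he.i, heG]
      · rintro p (hp | rfl) q (hq | rfl) hne
        · exact hS2 p hp q hq hne
        · exact horth p hp
        · exact (hS1 q hq).1.orth hg' (horth q hq)
        · exact absurd rfl hne
    have heq := hS.eq_of_subset hmem Set.subset_union_left
    have hgS : g' ∈ S := by rw [heq]; exact Or.inr rfl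
    have := horth g' hgS
    rw [hg'.i] at this
    exact hne0 _ h3 this
  have heg : e * g = g := by rw [hgd, mul_sub, he.i, ← mul_assoc, hev]
  refine ⟨z, hz, ?_, ?_⟩
  · intro h0
    apply hz0
    rw [← heg, ← mul_assoc, h0, zero_mul]
  · refine PI_of_homog hA (hz.proj he) (s := fun j : S => z * (j : A)) (g := z * g) (G := z * G)
      (fun j => hz.proj (hgP j)) (fun i j hij => by rw [hz.mul_mul, hgo i j hij, mul_zero])
      (fun j => Equ.cmul hz (hS1 _ j.2).2.2) (hz.proj hg) (hG.cmul hz) (by rw [hz.mul_mul, heG]) ?_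
    rw [← mul_sub]; exact s1

/-- two equivalent orthogonal halves give proper infiniteness -/
theorem PI_of_equ {e p q : A} (he : P e) (hp : P p) (hq : P q) (hpq : p * q = 0)
    (hep : e * p = p) (heq : e * q = q) (h1 : Equ e p) (h2 : Equ e q) : PI e := by
  obtain ⟨x, hx1, hx2⟩ := h1
  obtain ⟨y, hy1, hy2⟩ := h2
  have hxG : p * x = x := by rw [← hx2, mul_assoc, hx1, mul_of_star_mul he hx1]
  have hyG : q * y = y := by rw [← hy2, mul_assoc, hy1, mul_of_star_mul he hy1]
  refine ⟨x, y, hx1, hy1, ?_, ?_, ?_⟩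
  · rw [← hxG, ← hyG, star_mul, hp.s, mul_assoc, ← mul_assoc p, hpq, zero_mul, mul_zero]
  · rw [← hxG, ← mul_assoc, hep]
  · rw [← hyG, ← mul_assoc, heq]

/-- gluing proper infiniteness along an orthogonal family of central projections -/
theorem PI_sup (hA : IsAWStar A) {ι : Type*} {c : ι → A} {s g : A} (hc : ∀ i, Cen (c i))
    (hcc : ∀ i j, i ≠ j → c i * c j = 0) (hs : IsSup c s) (hsc : Cen s) (hg : P g)
    (hPI : ∀ i, PI (c i * g)) : PI (s * g) := by
  choose a b ha hb hab hga hgb using hPI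
  have hcg : ∀ i, P (c i * g) := fun i => (hc i).proj hg
  have hsgc : ∀ i, s * g * (c i * g) = c i * g := fun i => by
    rw [(hc i).swap, mul_assoc, hg.i, ← mul_assoc, (hc i).2 s, hs.le]
  have hsg : ∀ y, (∀ i, y * (c i * g) = 0) → y * (s * g) = 0 := by
    intro y hy
    have h1 : y * g * s = 0 := by
      apply hs.ann
      intro i
      rw [mul_assoc, ← (hc i).2 g]; exact hy i
    rw [hsc.2 g, ← mul_assoc]; exact h1
  have hA' : ∀ i, P (a i * star (a i)) := fun i => (hcg i).of_star (ha i)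
  have hB' : ∀ i, P (b i * star (b i)) := fun i => (hcg i).of_star (hb i)
  have hca : ∀ i, c i * a i = a i := fun i => by
    rw [← hga i, ← mul_assoc, ← mul_assoc, (hc i).1.i]
  have hcb : ∀ i, c i * b i = b i := fun i => by
    rw [← hgb i, ← mul_assoc, ← mul_assoc, (hc i).1.i]
  have hac : ∀ i, star (a i) * c i = star (a i) := fun i => by
    have := congrArg star (hca i)
    rwa [star_mul, (hc i).1.s] at this
  have hbc : ∀ i, star (b i) * c i = star (b i) := fun i => by
    have := congrArg star (hcb i)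
    rwa [star_mul, (hc i).1.s] at this
  -- elements living over different central pieces are orthogonal
  have hcen : ∀ i j x y, i ≠ j → c i * x = x → c j * y = y → x * y = 0 := by
    intro i j x y hij hx hy
    rw [← hx, ← hy, (hc j).swap, mul_assoc, ← mul_assoc, hcc j i hij.symm, zero_mul]
  have hcA : ∀ i, c i * (a i * star (a i)) = a i * star (a i) := fun i => by
    rw [← mul_assoc, hca]
  have hcB : ∀ i, c i * (b i * star (b i)) = b i * star (b i) := fun i => by
    rw [← mul_assoc, hcb]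
  have haa : ∀ i, a i * (c i * g) = a i := fun i => mul_of_star_mul (hcg i) (ha i)
  have hbb : ∀ i, b i * (c i * g) = b i := fun i => mul_of_star_mul (hcg i) (hb i)
  have hba : ∀ i, star (b i) * a i = 0 := fun i => by
    have := congrArg star (hab i)
    rwa [star_mul, star_star, star_zero] at this
  have hAA : ∀ i j, i ≠ j → a i * star (a i) * (a j * star (a j)) = 0 := fun i j h =>
    hcen i j _ _ h (hcA i) (hcA j)
  have hBB : ∀ i j, i ≠ j → b i * star (b i) * (b j * star (b j)) = 0 := fun i j h =>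
    hcen i j _ _ h (hcB i) (hcB j)
  have hAB : ∀ i j, a i * star (a i) * (b j * star (b j)) = 0 := fun i j => by
    by_cases h : i = j
    · subst h
      rw [mul_assoc, ← mul_assoc (star (a i)), hab, zero_mul, mul_zero]
    · exact hcen i j _ _ h (hcA i) (hcB j)
  obtain ⟨Pa, hPa⟩ := exists_isSup hA (fun i => a i * star (a i)) hA' hAA
  obtain ⟨Pb, hPb⟩ := exists_isSup hA (fun i => b i * star (b i)) hB' hBB
  have hEAB : ∀ i, Equ (a i * star (a i)) (b i * star (b i)) := fun i =>
    (Equ.symm ⟨a i, ha i, rfl⟩).trans (hA' i) ⟨b i, hb i, rfl⟩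
  have hPab : Equ Pa Pb := Equ.sup_orth hA hA' hAA hBB hAB hEAB hPa hPb
  have hPaPb : Pa * Pb = 0 := hPa.orth_sup hPb hA' hAB
  -- the family `D`
  have hgA : ∀ i, c i * g * (a i * star (a i)) = a i * star (a i) := fun i => by
    rw [← mul_assoc, hga]
  have hgB : ∀ i, c i * g * (b i * star (b i)) = b i * star (b i) := fun i => by
    rw [← mul_assoc, hgb]
  have hD : ∀ i, P (c i * g - a i * star (a i)) := fun i => (hA' i).sub (hcg i) (hgA i)
  set D : ι → A := fun i => c i * g - a i * star (a i) with hDd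
  have hcD : ∀ i, c i * D i = D i := fun i => by
    simp only [hDd]
    rw [mul_sub, ← mul_assoc, (hc i).1.i, hcA]
  have hDD : ∀ i j, i ≠ j → D i * D j = 0 := fun i j h => hcen i j _ _ h (hcD i) (hcD j)
  have hAD : ∀ i j, a i * star (a i) * D j = 0 := fun i j => by
    by_cases h : i = j
    · subst h
      simp only [hDd]
      rw [mul_sub, (hA' i).swap (hcg i) (hgA i), (hA' i).i, sub_self]
    · exact hcen i j _ _ h (hcA i) (hcD j)
  have hDA : ∀ i j, D i * (a j * star (a j)) = 0 := fun i j => (hA' j).orth (hD i) (hAD j i)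
  obtain ⟨Ds, hDs⟩ := exists_isSup hA D hD hDD
  have hPaDs : Pa * Ds = 0 := hPa.orth_sup hDs hA' hAD
  have hsum : IsSup (Sum.elim (fun i => a i * star (a i)) D) (Pa + Ds) :=
    hPa.sum_elim hDs hPaDs
  have hsum' : IsSup (Sum.elim (fun i => a i * star (a i)) D) (s * g) := by
    have e1 : ∀ i, s * g * (a i * star (a i)) = a i * star (a i) := fun i => by
      rw [← hgA i, ← mul_assoc, hsgc]
    refine ⟨hsc.proj hg, ?_, ?_⟩
    · rintro (i | i)
      · exact e1 i
      · simp only [Sum.elim_inr, hDd]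
        rw [mul_sub, hsgc, e1]
    · intro y hy
      apply hsg
      intro i
      have h1 := hy (Sum.inl i)
      have h2 := hy (Sum.inr i)
      simp only [Sum.elim_inl] at h1
      simp only [Sum.elim_inr, hDd] at h2
      rw [mul_sub, h1, sub_zero] at h2
      exact h2
  have hsgeq : s * g = Pa + Ds := hsum'.unique hsum
  -- `Pb ~ R2`
  have hB2 : ∀ i, Equ (b i * star (b i)) (a i * (b i * star (b i)) * star (a i)) := fun i =>
    equ_move (hcg i) (ha i) (hB' i) (hgB i)
  have hB2P : ∀ i, P (a i * (b i * star (b i)) * star (a i)) := fun i => (hB2 i).proj (hB' i)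
  have hcB2 : ∀ i, c i * (a i * (b i * star (b i)) * star (a i)) =
      a i * (b i * star (b i)) * star (a i) := fun i => by
    rw [← mul_assoc, ← mul_assoc, hca]
  have hB2o : ∀ i j, i ≠ j → a i * (b i * star (b i)) * star (a i) *
      (a j * (b j * star (b j)) * star (a j)) = 0 := fun i j h =>
    hcen i j _ _ h (hcB2 i) (hcB2 j)
  have hAa : ∀ i, a i * star (a i) * a i = a i := fun i => by rw [mul_assoc, ha, haa]
  have hBB2 : ∀ i j, b i * star (b i) * (a j * (b j * star (b j)) * star (a j)) = 0 :=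
    fun i j => by
    by_cases h : i = j
    · subst h
      calc b i * star (b i) * (a i * (b i * star (b i)) * star (a i)) =
          b i * ((star (b i) * a i) * ((b i * star (b i)) * star (a i))) := by
            simp only [mul_assoc]
        _ = 0 := by rw [hba, zero_mul, mul_zero]
    · exact hcen i j _ _ h (hcB i) (hcB2 j)
  obtain ⟨R2, hR2⟩ := exists_isSup hA _ hB2P hB2o
  have hPbR2 : Equ Pb R2 := Equ.sup_orth hA hB' hBB hB2o hBB2 hB2 hPb hR2
  -- `Ds ~ R3`
  have hgD : ∀ i, c i * g * D i = D i := fun i => by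
    simp only [hDd]
    rw [mul_sub, (hcg i).i, hgA]
  have hF1 : ∀ i, Equ (D i) (a i * D i * star (a i)) := fun i =>
    equ_move (hcg i) (ha i) (hD i) (hgD i)
  have hF1P : ∀ i, P (a i * D i * star (a i)) := fun i => (hF1 i).proj (hD i)
  have hgF1 : ∀ i, c i * g * (a i * D i * star (a i)) = a i * D i * star (a i) := fun i => by
    rw [← mul_assoc, ← mul_assoc, hga]
  have hF2 : ∀ i, Equ (a i * D i * star (a i))
      (a i * (a i * D i * star (a i)) * star (a i)) := fun i =>
    equ_move (hcg i) (ha i) (hF1P i) (hgF1 i)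
  have hF2P : ∀ i, P (a i * (a i * D i * star (a i)) * star (a i)) := fun i =>
    (hF2 i).proj (hF1P i)
  have hF : ∀ i, Equ (D i) (a i * (a i * D i * star (a i)) * star (a i)) := fun i =>
    (hF1 i).trans (hD i) (hF2 i)
  have hcF : ∀ i, c i * (a i * (a i * D i * star (a i)) * star (a i)) =
      a i * (a i * D i * star (a i)) * star (a i) := fun i => by
    rw [← mul_assoc, ← mul_assoc, hca]
  have hFo : ∀ i j, i ≠ j → a i * (a i * D i * star (a i)) * star (a i) *
      (a j * (a j * D j * star (a j)) * star (a j)) = 0 := fun i j h =>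
    hcen i j _ _ h (hcF i) (hcF j)
  have hDF : ∀ i j, D i * (a j * (a j * D j * star (a j)) * star (a j)) = 0 := fun i j => by
    have h1 : D i * a j = 0 := by rw [← hAa j, ← mul_assoc, hDA, zero_mul]
    rw [← mul_assoc, ← mul_assoc, h1, zero_mul, zero_mul]
  obtain ⟨R3, hR3⟩ := exists_isSup hA _ hF2P hFo
  have hDsR3 : Equ Ds R3 := Equ.sup_orth hA hD hDD hFo hDF hF hDs hR3
  have hR23 : R2 * R3 = 0 := by
    apply hR2.orth_sup hR3 hB2P
    intro i j
    by_cases h : i = j
    · subst h
      calc a i * (b i * star (b i)) * star (a i) *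
            (a i * (a i * D i * star (a i)) * star (a i)) =
          a i * b i * (star (b i) * ((star (a i) * a i) * (a i * (D i * (star (a i) *
            star (a i)))))) := by simp only [mul_assoc]
        _ = 0 := by
            rw [ha, ← mul_assoc (c i * g) (a i), hga, ← mul_assoc (star (b i)), hba, zero_mul,
              mul_zero]
    · exact hcen i j _ _ h (hcB2 i) (hcF j)
  have hPaR2 : Pa * R2 = R2 := hR2.le_of (fun i => by
    have h1 : Pa * a i = a i := by rw [← hAa i, ← mul_assoc, hPa.le]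
    rw [← mul_assoc, ← mul_assoc, h1])
  have hPaR3 : Pa * R3 = R3 := hR3.le_of (fun i => by
    have h1 : Pa * a i = a i := by rw [← hAa i, ← mul_assoc, hPa.le]
    rw [← mul_assoc, ← mul_assoc, h1])
  have hsub : Sub (s * g) Pa := by
    have h1 : Sub Pa R2 := (hPab.trans hPa.proj hPbR2).sub hPa.proj
    have h2 : Sub Ds R3 := hDsR3.sub hDs.proj
    have h3 := Sub.add hR2.proj h1 h2 hR23 (hR2.proj.orth hR3.proj hR23)
    rw [← hsgeq] at h3
    exact h3.mono (by rw [mul_add, hPaR2, hPaR3])
  have hsPa : s * g * Pa = Pa := by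
    rw [hsgeq, add_mul, hPa.proj.i, hPa.proj.orth hDs.proj hPaDs, add_zero]
  have hsPb : s * g * Pb = Pb := hPb.le_of (fun i => by rw [← hgB i, ← mul_assoc, hsgc])
  have hE : Equ (s * g) Pa := schroeder hA (hsc.proj hg) hPa.proj hsPa hsub
  exact PI_of_equ (hsc.proj hg) hPa.proj hPb.proj hPaPb hsPa hsPb hE
    (hE.trans (hsc.proj hg) hPab)

/-- every projection is centrally the sum of a finite and a properly infinite one -/
theorem ghalving (hA : IsAWStar A) {g : A} (hg : P g) :
    ∃ h, Cen h ∧ ¬ Infinite' (h * g) ∧ PI ((1 - h) * g) := by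
  obtain ⟨S, hS⟩ := zorn_subset
    {S : Set A | (∀ c ∈ S, Cen c ∧ c ≠ 0 ∧ PI (c * g)) ∧
      (∀ p ∈ S, ∀ q ∈ S, p ≠ q → p * q = 0)}
    (by
      intro c hc hchain
      refine ⟨⋃₀ c, ⟨?_, ?_⟩, fun s hs => Set.subset_sUnion_of_mem hs⟩
      · rintro x ⟨s, hs, hx⟩
        exact (hc hs).1 x hx
      · rintro x ⟨s, hs, hx⟩ y ⟨t, ht, hy⟩
        rcases hchain.total hs ht with h | h
        · exact (hc ht).2 x (h hx) y hy
        · exact (hc hs).2 x hx y (h hy))
  have hS1 := hS.prop.1
  have hS2 := hS.prop.2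
  obtain ⟨s, hs⟩ := exists_isSup hA (fun p : S => (p : A)) (fun p => (hS1 _ p.2).1.1)
    (fun p q hpq => hS2 _ p.2 _ q.2 (fun h => hpq (Subtype.ext h)))
  have hsc : Cen s := by
    refine ⟨hs.proj, fun a => ?_⟩
    exact (hs.comm (fun p => (hS1 _ p.2).1.1) (fun p => ((hS1 _ p.2).1.2 a).symm)).symm
  have hPI : PI (s * g) := PI_sup hA (fun p : S => (hS1 _ p.2).1)
    (fun p q hpq => hS2 _ p.2 _ q.2 (fun h => hpq (Subtype.ext h))) hs hsc hg
    (fun p => (hS1 _ p.2).2.2)
  refine ⟨1 - s, hsc.compl, ?_, by rw [sub_sub_cancel]; exact hPI⟩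
  intro hinf
  obtain ⟨z, hz, hz0, hzPI⟩ := exists_cPI hA (hsc.compl.proj hg) hinf
  have hc : Cen (z * (1 - s)) := hz.mul hsc.compl
  have hc0 : z * (1 - s) ≠ 0 := by
    intro h
    apply hz0
    rw [← mul_assoc, h, zero_mul]
  have horth : ∀ p ∈ S, p * (z * (1 - s)) = 0 := by
    intro p hp
    have h1 : p * s = p := (hS1 p hp).1.1.swap hs.proj (hs.le ⟨p, hp⟩)
    rw [hz.swap, mul_sub, mul_one, h1, sub_self, mul_zero]
  have hmem : S ∪ {z * (1 - s)} ∈ {S : Set A | (∀ c ∈ S, Cen c ∧ c ≠ 0 ∧ PI (c * g)) ∧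
      (∀ p ∈ S, ∀ q ∈ S, p ≠ q → p * q = 0)} := by
    refine ⟨?_, ?_⟩
    · rintro p (hp | rfl)
      · exact hS1 p hp
      · exact ⟨hc, hc0, by rw [mul_assoc]; exact hzPI⟩
    · rintro p (hp | rfl) q (hq | rfl) hne
      · exact hS2 p hp q hq hne
      · exact horth p hp
      · exact (hS1 q hq).1.1.orth hc.1 (horth q hq)
      · exact absurd rfl hne
  have heq := hS.eq_of_subset hmem Set.subset_union_left
  have hmemS : z * (1 - s) ∈ S := by rw [heq]; exact Or.inr rfl
  have := horth _ hmemS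
  rw [hc.1.i] at this
  exact hc0 this

end Pool.Agent.H54.AW
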