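import Pool.Agent.H54.AWG.Near

/-!
# Every AW*-algebra is clean
-/

set_option autoImplicit false
set_option linter.unusedSectionVars false

namespace Pool.Agent.H54.AW

universe u

variable {A : Type u} [CStarAlgebra A]

/-- central elimination for self-adjoint elements: on a large spectral projection they are almost
scalar -/
theorem sa_elim (hA : IsAWStar A) {e0 S : A} (he0 : P e0) (hPI : PI e0) (hS : star S = S)
    (hS1 : e0 * S = S) {ε : ℝ} (hε : 0 < ε) {Q : A → Prop} (hQ : Additive' Q)
    {z : A} (hz : Cen z) (H0 : ∀ w, Cen w → z * w = w → w * e0 = 0 → Q w)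
    (H : ∀ w, Cen w → z * w = w → ∀ (e1 : A) (c : ℂ), P e1 → e0 * e1 = e1 → w * e1 = e1 →
      Equ (w * e0) e1 → ‖e1 * (S - c • e0) * e1‖ ≤ ε → Q w) : Q z := by
  obtain ⟨ι, hι, d, c, h1, h2, h3, h4, h5⟩ := fd hA he0 hS hS1 hε
  refine big_elim_sum hA he0 hPI Finset.univ h1 h2 hQ hz H0 ?_ ?_
  · rw [h3]; exact (Sub.of_le (hz.proj he0) (by rw [hz.swap, he0.i]))
  · intro i _ w hw hzw hs
    have hed : e0 * d i = d i := by
      rw [← h3]; exact sum_mul_mem Finset.univ h1 h2 (Finset.mem_univ i)
    have hde : d i * e0 = d i := (h1 i).swap he0 hed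
    have hs' : Sub (w * e0) (w * d i) := by
      have := Sub.cmul hw hs
      rwa [← mul_assoc, hw.1.i] at this
    have hEq : Equ (w * e0) (w * d i) :=
      schroeder hA (hw.proj he0) (hw.proj (h1 i)) (by rw [hw.mul_mul, hed]) hs'
    refine H w hw hzw (w * d i) (c i) (hw.proj (h1 i)) (by rw [hw.swap, hed])
      (by rw [← mul_assoc, hw.1.i]) hEq ?_
    have hSd : d i * (∑ j, c j • d j) = c i • d i := by
      rw [Finset.mul_sum, Finset.sum_eq_single i]
      · rw [mul_smul_comm, (h1 i).i]
      · intro k _ hk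
        rw [mul_smul_comm, h2 i k (Ne.symm hk), smul_zero]
      · intro h; exact absurd (Finset.mem_univ i) h
    have e1 : w * d i * (S - c i • e0) * (w * d i) =
        w * (d i * (S - ∑ j, c j • d j) * d i) := by
      rw [mul_assoc w, hw.mul_mul]
      congr 2
      rw [mul_sub, mul_sub, hSd, mul_smul_comm, hde]
    rw [e1]
    refine hw.norm_le' ?_
    calc ‖d i * (S - ∑ j, c j • d j) * d i‖ ≤ ‖d i‖ * ‖S - ∑ j, c j • d j‖ * ‖d i‖ :=
          (norm_mul_le _ _).trans (mul_le_mul_of_nonneg_right (norm_mul_le _ _) (norm_nonneg _))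
      _ ≤ 1 * ε * 1 := by
          apply mul_le_mul _ (h1 i).norm_le (norm_nonneg _) (by positivity)
          exact mul_le_mul (h1 i).norm_le h5.le (norm_nonneg _) (by norm_num)
      _ = ε := by ring

/-- removing an off-diagonal part -/
theorem off_elim (hA : IsAWStar A) {e T e2 z : A} {ε : ℝ} (hε : 0 < ε) (he : P e) (hPI : PI e)
    (h2 : P e2) (he2 : e * e2 = e2) (hz : Cen z) (hz2 : z * e2 = e2) (hE : Equ (z * e) e2)
    {Q : A → Prop} (hQ : Additive' Q)
    (HNS : ∀ w, Cen w → z * w = w → NS (w * e) (w * T) → Q w)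
    (H : ∀ w, Cen w → z * w = w → ∀ e3, P e3 → e2 * e3 = e3 → w * e3 = e3 → Equ (w * e) e3 →
      ‖(e - e2) * T * e3‖ ≤ ε → Q w) : Q z := by
  obtain ⟨d, m, hd, hed, hdm, hmd, -, hm, -, hn⟩ := cut hA ((e - e2) * T * e2) h2 hε
  set y := (e - e2) * T * e2 with hyd
  have h2e := h2.swap he he2
  have hPe : P (e - e2) := h2.sub he he2
  have hPI2 : PI e2 := (PI.cmul hz hPI).equ (hz.proj he) hE
  have hde2 := hd.swap h2 hed
  have hd' : P (e2 - d) := hd.sub h2 hed
  have hdd : d * (e2 - d) = 0 := by rw [mul_sub, hde2, hd.i, sub_self]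
  have hwz : ∀ w, Cen w → z * w = w → Equ (w * e) (w * e2) := by
    intro w hw hzw
    have := Equ.cmul hw hE
    rwa [← mul_assoc, hw.2 z, hzw] at this
  have hey : (e - e2) * y = y := by rw [hyd, ← mul_assoc, ← mul_assoc, hPe.i]
  have hey' : e * y = y := by
    have : e * (e - e2) = e - e2 := by rw [mul_sub, he.i, he2]
    rw [← hey, ← mul_assoc, this]
  have hye : star y * (e - e2) = star y := by
    have := congrArg star hey; rwa [star_mul, hPe.s] at this
  have hye' : star y * e = star y := by
    have := congrArg star hey'; rwa [star_mul, he.s] at this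
  have hyd0 : star y * d = 0 := by
    have h3 : (e - e2) * d = 0 := by
      rw [← hed, ← mul_assoc, sub_mul, he2, h2.i, sub_self, zero_mul]
    rw [← hye, mul_assoc, h3, mul_zero]
  refine big_elim hA h2 hPI2 hd hd' hdd hQ hz (by
    rw [add_sub_cancel, hz2]; exact Sub.refl h2) ?_ ?_
  · intro w hw hzw hs
    apply HNS w hw hzw
    have hwe := hw.proj he
    obtain ⟨u, hu, hdu⟩ := ((hwz w hw hzw).sub hwe).trans hs
    have huw := mul_of_star_mul hwe hu
    have hwu : w * u = u := by
      calc w * u = w * (u * (w * e)) := by rw [huw]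
        _ = u * (w * e) := by rw [hw.swap, ← mul_assoc, hw.1.i]
        _ = u := huw
    have h2u : e2 * u = u := by rw [← hdu, ← mul_assoc, hed]
    have heu : e * u = u := by rw [← h2u, ← mul_assoc, he2]
    have hsud : star u * d = star u := by
      have := congrArg star hdu; rwa [star_mul, hd.s] at this
    have hwsu : w * e * star u = star u := by
      have := congrArg star huw; rwa [star_mul, hwe.s] at this
    have hsuw : star u * w = star u := by
      have := congrArg star hwu; rwa [star_mul, hw.1.s] at this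
    refine NS.of hwe (a := u) (b := star u * m * star y) ?_ huw ?_ ?_ ?_ ?_
    · rw [mul_assoc, heu, hwu]
    · rw [← mul_assoc, ← mul_assoc, hwsu]
    · rw [mul_assoc, hw.swap, hye', hw.swap, ← mul_assoc, ← mul_assoc, hw.2, hsuw]
    · rw [mul_assoc, ← hdu, ← mul_assoc (star y), hyd0, zero_mul, mul_zero]
    · calc star u * m * star y * (w * T) * u = star u * m * (star y * (T * (w * u))) := by
            rw [hw.2 T]; simp only [mul_assoc]
        _ = star u * (m * d) * ((star y * (e - e2)) * (T * (e2 * u))) := by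
            rw [hwu, hmd, hye, h2u]
        _ = star u * (m * (d * (star y * y) * (d * u))) := by
            rw [hdu, hyd]; simp only [mul_assoc]
        _ = star u * (m * (d * (star y * y) * d)) * u := by simp only [mul_assoc]
        _ = w * e := by rw [hm, hsud, hu]
  · intro w hw hzw hs
    have hs' : Sub (w * e2) (w * (e2 - d)) := by
      have := Sub.cmul hw hs
      rwa [← mul_assoc, hw.1.i] at this
    have h2' : e2 * (e2 - d) = e2 - d := by rw [mul_sub, h2.i, hed]
    have hEq : Equ (w * e2) (w * (e2 - d)) :=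
      schroeder hA (hw.proj h2) (hw.proj hd') (by rw [hw.mul_mul, h2']) hs'
    refine H w hw hzw (w * (e2 - d)) (hw.proj hd') (by rw [hw.swap, h2'])
      (by rw [← mul_assoc, hw.1.i]) ((hwz w hw hzw).trans (hw.proj he) hEq) ?_
    have e1 : (e - e2) * T * (w * (e2 - d)) = w * (y * (e2 - d)) := by
      rw [hw.swap, hyd, mul_assoc ((e - e2) * T) e2, h2']
    rw [e1]
    exact hw.norm_le' hn

/-- elements of properly infinite corners are clean -/
theorem clean_PI (hA : IsAWStar A) {e T : A} (he : P e) (hPI : PI e) (hT1 : e * T = T)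
    (hT2 : T * e = T) : CleanIn e T := by
  set X : ℝ := 2 * ‖T‖ + 2 with hXd
  have hX2 : 2 ≤ X := by rw [hXd]; linarith [norm_nonneg T]
  set δ : ℝ := 1 / (7500 * X ^ 2) with hδd
  have hδ : 0 < δ := by positivity
  have hδX : 2500 * X ^ 2 * (3 * δ) ≤ 1 := by
    rw [hδd]; field_simp; norm_num
  have hδ3 : 3 * δ ≤ 1 := by
    have : 1 * (3 * δ) ≤ 2500 * X ^ 2 * (3 * δ) := by
      apply mul_le_mul_of_nonneg_right _ (by positivity)
      nlinarith
    linarith
  set Q : A → Prop := fun z => CleanIn (z * e) (z * T) with hQd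
  have hQ : Additive' Q := clean_additive e T
  have hQ0 : ∀ w, Cen w → w * e = 0 → Q w := by
    intro w hw h0
    have : w * T = 0 := by rw [← hT1, ← mul_assoc, h0, zero_mul]
    simp only [hQd, h0, this]
    exact cleanIn_zero
  have hQNS : ∀ w, Cen w → NS (w * e) (w * T) → Q w := by
    intro w hw h
    exact h.clean hA (hw.proj he) (PI.cmul hw hPI) (by rw [hw.mul_mul, hT1])
      (by rw [hw.mul_mul, hT2])
  have hTs1 : e * star T = star T := by
    have := congrArg star hT2
    rwa [star_mul, he.s] at this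
  have hmain : Q 1 := by
    refine sa_elim hA he hPI (S := T + star T) (by rw [star_add, star_star, add_comm])
      (by rw [mul_add, hT1, hTs1]) hδ hQ Cen.one (fun w hw _ h => hQ0 w hw h) ?_
    intro w1 hw1 _ e1 c1 he1 hee1 hwe1 hE1 hn1
    have he1e := he1.swap he hee1
    have hPI1 : PI e1 := (PI.cmul hw1 hPI).equ (hw1.proj he) hE1
    set U := Complex.I • T with hU
    have hSs : star (e1 * (U + star U) * e1) = e1 * (U + star U) * e1 := by
      rw [star_mul, star_mul, he1.s, star_add, star_star, add_comm, mul_assoc]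
    refine sa_elim hA he1 hPI1 (S := e1 * (U + star U) * e1) hSs
      (by rw [← mul_assoc, ← mul_assoc, he1.i]) hδ hQ hw1 ?_ ?_
    · intro w hw hww h0
      apply hQ0 w hw
      have h3 := Equ.cmul hw hE1
      rw [← mul_assoc, hw.2 w1, hww, h0] at h3
      exact equ_zero h3
    intro w2 hw2 hw12 e2 c2 he2 he12 hwe2 hE2 hn2
    have he21 := he2.swap he1 he12
    have hee2 : e * e2 = e2 := by rw [← he12, ← mul_assoc, hee1]
    have he2e := he2.swap he hee2
    have hEe2 : Equ (w2 * e) e2 := by
      have h3 := Equ.cmul hw2 hE1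
      rw [← mul_assoc, hw2.2 w1, hw12] at h3
      exact h3.trans (hw2.proj he) hE2
    set c : ℂ := (1 / 2 : ℂ) * (c1 - Complex.I * c2) with hcd
    set x := T - c • e with hxd
    have hTx : T = c • e + x := by rw [hxd]; abel
    have hx1 : e * x = x := by rw [hxd, mul_sub, mul_smul_comm, he.i, hT1]
    have hx2 : x * e = x := by rw [hxd, sub_mul, smul_mul_assoc, he.i, hT2]
    -- the compression of `x` is small
    have hxn : ‖e2 * x * e2‖ ≤ δ := by
      have m1 : ‖e2 * (T + star T - c1 • e) * e2‖ ≤ δ := by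
        have : e2 * (T + star T - c1 • e) * e2 =
            e2 * (e1 * (T + star T - c1 • e) * e1) * e2 := by
          calc e2 * (T + star T - c1 • e) * e2 =
              (e2 * e1) * (T + star T - c1 • e) * (e1 * e2) := by rw [he21, he12]
            _ = _ := by simp only [mul_assoc]
        rw [this]
        calc ‖e2 * (e1 * (T + star T - c1 • e) * e1) * e2‖ ≤
              ‖e2‖ * ‖e1 * (T + star T - c1 • e) * e1‖ * ‖e2‖ :=
                (norm_mul_le _ _).trans
                  (mul_le_mul_of_nonneg_right (norm_mul_le _ _) (norm_nonneg _))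
            _ ≤ 1 * δ * 1 := by
                apply mul_le_mul _ he2.norm_le (norm_nonneg _) (by positivity)
                exact mul_le_mul he2.norm_le hn1 (norm_nonneg _) (by norm_num)
            _ = δ := by ring
      have hUh : e2 * (e1 * (U + star U) * e1 - c2 • e1) * e2 =
          e2 * (Complex.I • T - Complex.I • star T - c2 • e) * e2 := by
        have s1 : star U = -(Complex.I • star T) := by
          rw [hU, star_smul]; simp
        rw [s1, hU]
        simp only [mul_sub, mul_add, sub_mul, add_mul, mul_neg, neg_mul, mul_smul_comm,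
          smul_mul_assoc, ← mul_assoc, he21, he2e]
        simp only [mul_assoc, he12]
        abel
      rw [hUh] at hn2
      have key : e2 * x * e2 =
          (1 / 2 : ℂ) • (e2 * (T + star T - c1 • e) * e2) -
            ((1 / 2 : ℂ) * Complex.I) •
              (e2 * (Complex.I • T - Complex.I • star T - c2 • e) * e2) := by
        rw [hxd, hcd]
        simp only [mul_sub, mul_add, sub_mul, add_mul, mul_smul_comm, smul_mul_assoc, smul_sub,
          smul_add, smul_smul]
        have i1 : (1 / 2 : ℂ) * Complex.I * Complex.I = -(1 / 2) := by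
          rw [mul_assoc, Complex.I_mul_I]; ring
        rw [i1]
        have i2 : e2 * T * e2 = (1 / 2 : ℂ) • (e2 * T * e2) + (1 / 2 : ℂ) • (e2 * T * e2) := by
          rw [← add_smul]; norm_num
        have i3 : ((1 / 2 : ℂ) * c1 - (1 / 2 : ℂ) * (Complex.I * c2)) • (e2 * e * e2) =
            ((1 / 2 : ℂ) * c1) • (e2 * e * e2) -
              ((1 / 2 : ℂ) * Complex.I * c2) • (e2 * e * e2) := by
          rw [← sub_smul]; congr 1; ring
        rw [i3]
        conv_lhs => rw [i2]
        rw [neg_smul]
        simp only [neg_smul]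
        abel
      rw [key]
      calc _ ≤ ‖(1 / 2 : ℂ) • (e2 * (T + star T - c1 • e) * e2)‖ +
            ‖((1 / 2 : ℂ) * Complex.I) •
              (e2 * (Complex.I • T - Complex.I • star T - c2 • e) * e2)‖ := norm_sub_le _ _
        _ = (1 / 2) * ‖e2 * (T + star T - c1 • e) * e2‖ +
            (1 / 2) * ‖e2 * (Complex.I • T - Complex.I • star T - c2 • e) * e2‖ := by
              rw [norm_smul, norm_smul, norm_mul (1 / 2 : ℂ) Complex.I, Complex.norm_I]
              norm_num
        _ ≤ (1 / 2) * δ + (1 / 2) * δ := by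
              have := mul_le_mul_of_nonneg_left m1 (by norm_num : (0 : ℝ) ≤ 1 / 2)
              have := mul_le_mul_of_nonneg_left hn2 (by norm_num : (0 : ℝ) ≤ 1 / 2)
              linarith
        _ = δ := by ring
    refine off_elim hA hδ he hPI (T := T) he2 hee2 hw2 hwe2 hEe2 hQ
      (fun w hw _ h => hQNS w hw h) ?_
    intro w3 hw3 hw23 e3 he3 he23 hwe3 hEe3 hn3
    have hee3 : e * e3 = e3 := by rw [← he23, ← mul_assoc, hee2]
    have he3e := he3.swap he hee3
    refine off_elim hA hδ he hPI (T := star T) he3 hee3 hw3 hwe3 hEe3 hQ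
      (fun w hw _ h => hQNS w hw (NS.of_star (hw.proj he) (by
        rw [hw.star_mul]; exact h))) ?_
    intro w4 hw4 hw34 e4 he4 he34 hwe4 hEe4 hn4
    have hee4 : e * e4 = e4 := by rw [← he34, ← mul_assoc, hee3]
    have he4e := he4.swap he hee4
    -- estimates
    have hxe3 : ‖x * e3‖ ≤ 2 * δ := by
      have e5 : x * e3 = e2 * x * e2 * e3 + (e - e2) * T * e3 := by
        have f1 : e2 * x * e2 * e3 = e2 * x * e3 := by rw [mul_assoc, he23]
        have f2 : (e - e2) * T * e3 = (e - e2) * x * e3 := by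
          rw [hTx, mul_add, add_mul, mul_smul_comm, sub_mul, he.i, he2e, smul_mul_assoc, sub_mul,
            hee3, he23, sub_self, smul_zero, zero_add]
        rw [f1, f2, ← add_mul, ← add_mul, add_sub_cancel, hx1]
      rw [e5]
      calc _ ≤ ‖e2 * x * e2 * e3‖ + ‖(e - e2) * T * e3‖ := norm_add_le _ _
        _ ≤ δ * 1 + δ := by
            apply add_le_add _ hn3
            exact (norm_mul_le _ _).trans (mul_le_mul hxn he3.norm_le (norm_nonneg _) hδ.le)
        _ = 2 * δ := by ring
    have hxe4 : ‖x * e4‖ ≤ 3 * δ := by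
      rw [← he34, ← mul_assoc]
      calc ‖x * e3 * e4‖ ≤ ‖x * e3‖ * ‖e4‖ := norm_mul_le _ _
        _ ≤ 2 * δ * 1 := mul_le_mul hxe3 he4.norm_le (norm_nonneg _) (by positivity)
        _ ≤ 3 * δ := by linarith
    have he4x : ‖e4 * x‖ ≤ 3 * δ := by
      have e5 : e4 * x = e4 * (x * e3) + star ((e - e3) * star T * e4) := by
        have f1 : star ((e - e3) * star T * e4) = e4 * T * (e - e3) := by
          have : P (e - e3) := he3.sub he hee3
          rw [star_mul, star_mul, star_star, he4.s, this.s, mul_assoc]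
        have f2 : e4 * T * (e - e3) = e4 * x * (e - e3) := by
          have he43 := he4.swap he3 he34
          rw [hTx, mul_add, add_mul, mul_smul_comm, he4e, smul_mul_assoc, mul_sub, he4e, he43,
            sub_self, smul_zero, zero_add]
        rw [f1, f2, ← mul_assoc, ← mul_add, add_sub_cancel, mul_assoc, hx2]
      rw [e5]
      calc _ ≤ ‖e4 * (x * e3)‖ + ‖star ((e - e3) * star T * e4)‖ := norm_add_le _ _
        _ ≤ 1 * (2 * δ) + δ := by
            apply add_le_add
            · exact (norm_mul_le _ _).trans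
                (mul_le_mul he4.norm_le hxe3 (norm_nonneg _) (by norm_num))
            · rw [norm_star]; exact hn4
        _ = 3 * δ := by ring
    by_cases h40 : e4 = 0
    · apply hQ0 w4 hw4
      rw [h40] at hEe4
      exact equ_zero hEe4
    have h41 : ‖e4‖ = 1 := by
      have h1 : ‖e4‖ * ‖e4‖ = ‖e4‖ := by
        rw [← CStarRing.norm_star_mul_self, he4.s, he4.i]
      have h2 : ‖e4‖ ≠ 0 := norm_ne_zero_iff.2 h40
      exact mul_right_cancel₀ h2 (by rw [h1, one_mul])
    have hcn : ‖c‖ ≤ ‖T‖ + 1 := by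
      have h1 : c • e4 = T * e4 - x * e4 := by
        rw [hxd, sub_mul, smul_mul_assoc, hee4]; abel
      have h2 : ‖c‖ ≤ ‖T * e4‖ + ‖x * e4‖ := by
        calc ‖c‖ = ‖c • e4‖ := by rw [norm_smul, h41, mul_one]
          _ = ‖T * e4 - x * e4‖ := by rw [h1]
          _ ≤ _ := norm_sub_le _ _
      have h3 : ‖T * e4‖ ≤ ‖T‖ := by
        calc ‖T * e4‖ ≤ ‖T‖ * ‖e4‖ := norm_mul_le _ _
          _ = ‖T‖ := by rw [h41, mul_one]
      linarith
    have hxX : ‖x‖ ≤ X := by
      calc ‖x‖ ≤ ‖T‖ + ‖c • e‖ := by rw [hxd]; exact norm_sub_le _ _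
        _ ≤ ‖T‖ + ‖c‖ * 1 := by
            rw [norm_smul]
            have := mul_le_mul_of_nonneg_left he.norm_le (norm_nonneg c)
            linarith
        _ ≤ X := by rw [hXd]; linarith
    refine clean_near hA (x := w4 * x) (r0 := e4) (c := c) (ε := 3 * δ) (X := X) (hw4.proj he)
      (PI.cmul hw4 hPI) ?_ (by rw [hw4.mul_mul, hx1]) (by rw [hw4.mul_mul, hx2]) he4 ?_ hEe4 ?_ ?_
      (hw4.norm_le' hxX) (by linarith) hδX
    · conv_lhs => rw [hTx]
      rw [mul_add, mul_smul_comm]
    · rw [mul_assoc, hee4, hwe4]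
    · rw [mul_assoc]; exact hw4.norm_le' hxe4
    · rw [hw4.swap]; exact hw4.norm_le' he4x
  have := hmain
  simp only [hQd, one_mul] at this
  exact this

/-- Every AW*-algebra is clean. -/
theorem gmain (hA : IsAWStar A) : IsClean A := by
  intro x
  obtain ⟨h, hh, hfin, hPI⟩ := ghalving hA (IsStarProjection.one A)
  have hc : CleanIn (1 : A) x := by
    refine CleanIn.glue hh ?_ ?_
    · refine gclean_of_finite hA (hh.proj (IsStarProjection.one A)) hfin ?_ ?_
      · rw [mul_one, ← mul_assoc, hh.1.i]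
      · rw [mul_one, mul_assoc, ← hh.2, ← mul_assoc, hh.1.i]
    · refine clean_PI hA (hh.compl.proj (IsStarProjection.one A)) hPI ?_ ?_
      · rw [mul_one, ← mul_assoc, hh.compl.1.i]
      · rw [mul_one, mul_assoc, ← hh.compl.2, ← mul_assoc, hh.compl.1.i]
  obtain ⟨f, h1, -, -, -, -, y, -, -, h5, h6⟩ := hc
  exact ⟨x - f, f, ⟨⟨x - f, y, h6, h5⟩, rfl⟩, h1, by rw [sub_add_cancel]⟩

end Pool.Agent.H54.AW
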