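import Pool.Agent.H54.AWG.Fin
import Pool.Agent.H54.AWG.CutN

/-!
# The mixing lemma
-/

set_option autoImplicit false
set_option linter.unusedSectionVars false

namespace Pool.Agent.H54.AW

universe u

variable {A : Type u} [CStarAlgebra A]

/-- An element which is bounded below on a large projection and almost zero on another large one
is not a scalar modulo small projections. -/
theorem NS.mix {e x u v b1 : A} {c : ℂ} {ε K : ℝ} (he : P e)
    (hu : star u * u = e) (heu : e * u = u) (hv : star v * v = e) (hev : e * v = v)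
    (hb1 : e * b1 = b1) (hb2 : b1 * e = b1)
    (hb : b1 * (x * u) = e) (hvu : ‖star v * u‖ ≤ 1 / 2) (hxv : ‖x * v‖ ≤ ε)
    (hvx : ‖star v * x‖ ≤ ε) (hK : ‖b1‖ ≤ K) (hε : 9 * K * ε < 1) : NS e (c • e + x) := by
  have hue := mul_of_star_mul he hu
  have hve := mul_of_star_mul he hv
  have hun := norm_le_one_of_star he hu
  have hvn := norm_le_one_of_star he hv
  have hesv : e * star v = star v := by
    have := congrArg star hve; rwa [star_mul, he.s] at this
  have hsve : star v * e = star v := by
    have := congrArg star hev; rwa [star_mul, he.s] at this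
  have hε0 : 0 ≤ ε := (norm_nonneg _).trans hxv
  have hK0 : 0 ≤ K := (norm_nonneg _).trans hK
  set a := u + v with ha
  have hea : e * a = a := by rw [ha, mul_add, heu, hev]
  have hae : a * e = a := by rw [ha, add_mul, hue, hve]
  have han : ‖a‖ ≤ 2 := (norm_add_le _ _).trans (by linarith)
  obtain ⟨n, n1, n2, n3, n4⟩ := exists_left_inv_of_small he (d := star v * u)
    (by rw [← mul_assoc, hesv]) (by rw [mul_assoc, hue]) (by linarith)
  have hnn : ‖n‖ ≤ 2 := by
    have h1 : n = e - n * (star v * u) := by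
      rw [mul_add, n2] at n3
      exact eq_sub_of_add_eq n3
    have h2 : ‖n‖ ≤ 1 + ‖n‖ * (1 / 2) := by
      calc ‖n‖ = ‖e - n * (star v * u)‖ := congrArg _ h1
        _ ≤ ‖e‖ + ‖n * (star v * u)‖ := norm_sub_le _ _
        _ ≤ 1 + ‖n‖ * (1 / 2) := by
            apply add_le_add he.norm_le
            exact (norm_mul_le _ _).trans (mul_le_mul_of_nonneg_left hvu (norm_nonneg _))
    linarith
  have hva : n * star v * a = e := by
    rw [ha, mul_add, mul_assoc, mul_assoc, hv, ← mul_add, add_comm, n3]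
  set b0 := b1 - b1 * a * (n * star v) with hb0
  have hb0a : b0 * a = 0 := by
    rw [hb0, sub_mul, mul_assoc (b1 * a), hva, mul_assoc b1 a e, hae, sub_self]
  have heb0 : e * b0 = b0 := by
    rw [hb0, mul_sub]; simp only [← mul_assoc, hb1]
  have hb0e : b0 * e = b0 := by
    rw [hb0, sub_mul, hb2]; simp only [mul_assoc, hsve]
  set E := b1 * (x * v) - b1 * a * (n * (star v * x) * a) with hE
  have hxe : b0 * x * a = e + E := by
    rw [hb0, hE, sub_mul, sub_mul]
    have h1 : b1 * x * a = e + b1 * (x * v) := by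
      rw [ha, mul_add, mul_assoc, mul_assoc, hb]
    rw [h1]; simp only [mul_assoc]; abel
  have hEn : ‖E‖ < 1 := by
    have h1 : ‖b1 * (x * v)‖ ≤ K * ε :=
      (norm_mul_le _ _).trans (mul_le_mul hK hxv (norm_nonneg _) hK0)
    have h2 : ‖b1 * a‖ ≤ K * 2 :=
      (norm_mul_le _ _).trans (mul_le_mul hK han (norm_nonneg _) hK0)
    have h3 : ‖n * (star v * x) * a‖ ≤ 2 * ε * 2 := by
      refine (norm_mul_le _ _).trans (mul_le_mul ?_ han (norm_nonneg _) (by positivity))
      exact (norm_mul_le _ _).trans (mul_le_mul hnn hvx (norm_nonneg _) (by norm_num))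
    have h4 : ‖b1 * a * (n * (star v * x) * a)‖ ≤ K * 2 * (2 * ε * 2) :=
      (norm_mul_le _ _).trans (mul_le_mul h2 h3 (norm_nonneg _) (by positivity))
    calc ‖E‖ ≤ ‖b1 * (x * v)‖ + ‖b1 * a * (n * (star v * x) * a)‖ := norm_sub_le _ _
      _ ≤ K * ε + K * 2 * (2 * ε * 2) := add_le_add h1 h4
      _ = 9 * K * ε := by ring
      _ < 1 := hε
  have heE : e * E = E := by
    rw [hE, mul_sub]; simp only [← mul_assoc, hb1]
  have hEe : E * e = E := by
    rw [hE, sub_mul]; simp only [mul_assoc, hve, hae]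
  obtain ⟨k, k1, k2, k3, k4⟩ := exists_left_inv_of_small he heE hEe hEn
  clear_value a
  refine NS.of he (a := a) (b := k * b0) hea hae (by rw [← mul_assoc, k1])
    (by rw [mul_assoc, hb0e]) (by rw [mul_assoc, hb0a, mul_zero]) ?_
  rw [mul_add, add_mul, mul_smul_comm, smul_mul_assoc, mul_assoc k b0 e, hb0e, mul_assoc k b0 a,
    hb0a, mul_zero, smul_zero, zero_add, mul_assoc k b0 x, mul_assoc k, hxe, k3]

theorem NS.of_star {e T : A} (he : P e) (h : NS e (star T)) : NS e T := by
  obtain ⟨a, b, y, h1, h2, h3, h4, h5, h6, h7, h8, h9⟩ := h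
  have key : star (star b * star T * a) = star a * T * b := by
    rw [star_mul, star_mul, star_star, star_star, mul_assoc]
  refine ⟨b, a, star y, h2, h1, h4, h3, ?_, ?_, ?_, ?_, ?_⟩
  · have := congrArg star h5
    rwa [star_mul, star_star, star_zero] at this
  · have := congrArg star h7
    rwa [star_mul, he.s] at this
  · have := congrArg star h6
    rwa [star_mul, he.s] at this
  · rw [← key, ← star_mul, h9, he.s]
  · rw [← key, ← star_mul, h8, he.s]

theorem CleanIn.glue {e x h : A} (hh : Cen h) (h1 : CleanIn (h * e) (h * x))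
    (h2 : CleanIn ((1 - h) * e) ((1 - h) * x)) : CleanIn e x := by
  obtain ⟨f, f1, f2, f3, f4⟩ := h1
  obtain ⟨f', f1', f2', f3', f4'⟩ := h2
  have hf : h * f = f := by rw [← f2, ← mul_assoc, ← mul_assoc, hh.1.i]
  have hf' : (1 - h) * f' = f' := by rw [← f2', ← mul_assoc, ← mul_assoc, hh.compl.1.i]
  have hff' : f * f' = 0 := by rw [← hf, ← hf', hh.orth]
  have hf'f : f' * f = 0 := by rw [← hf, ← hf', hh.orth']
  have hef : e * f = f := by
    rw [← hf, hh.swap, ← mul_assoc, f2, hf]
  have hfe : f * e = f := by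
    rw [← hf, hh.left, ← hh.swap f e, f3, hf]
  have hef' : e * f' = f' := by
    rw [← hf', hh.compl.swap, ← mul_assoc, f2', hf']
  have hfe' : f' * e = f' := by
    rw [← hf', hh.compl.left, ← hh.compl.swap f' e, f3', hf']
  refine ⟨f + f', ?_, ?_, ?_, ?_⟩
  · rw [add_mul, mul_add, mul_add, f1, f1', hff', hf'f]; abel
  · rw [mul_add, hef, hef']
  · rw [add_mul, hfe, hfe']
  · have := Iso.add f4 f4' (hh.orth _ _) (hh.orth' _ _) (hh.orth _ _) (hh.orth' _ _)
    rw [Cen.split] at this
    have e1 : h * x - f + ((1 - h) * x - f') = x - (f + f') := by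
      calc h * x - f + ((1 - h) * x - f') = (h * x + (1 - h) * x) - (f + f') := by abel
        _ = x - (f + f') := by rw [Cen.split]
    rwa [e1] at this

theorem cleanIn_zero : CleanIn (0 : A) 0 :=
  ⟨0, by simp, by simp, by simp, by simp, by simp, 0, by simp, by simp, by simp, by simp⟩

/-- being clean is an additive property of the central piece -/
theorem clean_additive (e T : A) : Additive' (fun z : A => CleanIn (z * e) (z * T)) := by
  intro z h hz hh h1 h2
  refine CleanIn.glue hh ?_ ?_
  · rw [← mul_assoc, ← mul_assoc, hh.2 z]; exact h1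
  · rw [← mul_assoc, ← mul_assoc, hh.compl.2 z]; exact h2

/-- Schur reduction to the corner of `G`, for `T = c e + x` with `x` small off `G`. -/
theorem clean_schur {e T G x : A} {c : ℂ} (he : P e) (hG : P G) (heG : e * G = G)
    (hT : T = c • e + x) (hx1 : e * x = x) (hx2 : x * e = x) (hc : 1 / 2 ≤ ‖c‖)
    (hn : ‖x * (e - G)‖ ≤ 1 / 4)
    (h : ∀ m, (e - G) * m = m → m * (e - G) = m → ‖m‖ ≤ 4 →
      CleanIn G (c • G + (G * x * G - G * x * m * x * G))) : CleanIn e T := by
  have hGe := hG.swap he heG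
  have hk : P (e - G) := hG.sub he heG
  have hkG : (e - G) * G = 0 := by rw [sub_mul, heG, hG.i, sub_self]
  have hGk : G * (e - G) = 0 := hk.orth hG hkG
  set k := e - G with hkd
  have hke : k * e = k := by rw [hkd, sub_mul, he.i, hGe]
  have hek : e * k = k := by rw [hkd, mul_sub, he.i, heG]
  clear_value k
  have hkxk : ‖k * x * k‖ ≤ 1 / 4 := by
    rw [mul_assoc]
    calc ‖k * (x * k)‖ ≤ ‖k‖ * ‖x * k‖ := norm_mul_le _ _
      _ ≤ 1 * (1 / 4) := mul_le_mul hk.norm_le hn (norm_nonneg _) (by norm_num)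
      _ = 1 / 4 := by norm_num
  have hkk : k * T * k = c • k + k * x * k := by
    rw [hT, mul_add, add_mul, mul_smul_comm, hke, smul_mul_assoc, hk.i]
  obtain ⟨m, m1, m2, m3, m4⟩ := scalar_perturb (c := c) (d := k * x * k) hk
    (by simp only [← mul_assoc, hk.i]) (by simp only [mul_assoc, hk.i])
    (lt_of_le_of_lt hkxk (by linarith))
  have hmn : ‖m‖ ≤ 4 := by
    have h1 : c • m = k - m * (k * x * k) := by
      rw [mul_add, mul_smul_comm, m2] at m3
      exact eq_sub_of_add_eq m3
    have h2 : ‖c‖ * ‖m‖ ≤ 1 + ‖m‖ * (1 / 4) := by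
      calc ‖c‖ * ‖m‖ = ‖k - m * (k * x * k)‖ := by rw [← norm_smul, h1]
        _ ≤ ‖k‖ + ‖m * (k * x * k)‖ := norm_sub_le _ _
        _ ≤ 1 + ‖m‖ * (1 / 4) := by
            apply add_le_add hk.norm_le
            exact (norm_mul_le _ _).trans (mul_le_mul_of_nonneg_left hkxk (norm_nonneg _))
    nlinarith [norm_nonneg m]
  rw [← hkk] at m3 m4
  have hsum : k + G = e := by rw [hkd]; abel
  have hGm : G * m = 0 := by rw [← m1, ← mul_assoc, hGk, zero_mul]
  have hmG : m * G = 0 := by rw [← m2, mul_assoc, hkG, mul_zero]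
  have hem : e * m = m := by rw [← m1, ← mul_assoc, hek]
  have hme : m * e = m := by rw [← m2, mul_assoc, hke]
  have hS : G * T * G - G * T * m * T * G = c • G + (G * x * G - G * x * m * x * G) := by
    have e1 : G * T * G = c • G + G * x * G := by
      rw [hT, mul_add, add_mul, mul_smul_comm, hGe, smul_mul_assoc, hG.i]
    have e2 : G * T * m = G * x * m := by
      rw [hT, mul_add, add_mul, mul_smul_comm, hGe, smul_mul_assoc, hGm, smul_zero, zero_add]
    have e3 : m * T * G = m * x * G := by
      rw [hT, mul_add, add_mul, mul_smul_comm, hme, smul_mul_assoc, hmG, smul_zero, zero_add]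
    have e4 : G * T * m * T * G = G * x * m * x * G := by
      rw [e2]
      calc G * x * m * T * G = G * x * (m * T * G) := by simp only [mul_assoc]
        _ = G * x * m * x * G := by rw [e3]; simp only [mul_assoc]
    rw [e1, e4]; abel
  have hT1 : e * T = T := by rw [hT, mul_add, mul_smul_comm, he.i, hx1]
  have hT2 : T * e = T := by rw [hT, add_mul, smul_mul_assoc, he.i, hx2]
  have := CleanIn.schur (k := k) (g := G) (x := T) (m := m) hk.i hG.i hkG hGk
    (by rw [hsum, hT1]) (by rw [hsum, hT2]) m1 m2 m3 m4 (by rw [hS]; exact h m m1 m2 hmn)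
  rwa [hsum] at this

end Pool.Agent.H54.AW
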