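import Pool.Agent.H54.AWG.Mix

/-!
# Elements which are almost a scalar on a large projection are clean
-/

set_option autoImplicit false
set_option linter.unusedSectionVars false

namespace Pool.Agent.H54.AW

universe u

variable {A : Type u} [CStarAlgebra A]

theorem NS.of_big {e x r0 g m : A} {c : ℂ} {ε X : ℝ} (he : P e) (hx1 : e * x = x)
    (hr0 : P r0) (her0 : e * r0 = r0) (hEr : Equ e r0) (hn1 : ‖x * r0‖ ≤ ε) (hn2 : ‖r0 * x‖ ≤ ε)
    (hg : P g) (heg : e * g = g) (hcomm : g * (star x * x) = star x * x * g) (hgm : g * m = m)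
    (hmg : m * g = m) (hm1 : m * (g * (star x * x) * g) = g)
    (hm2 : (g * (star x * x) * g) * m = g) (hmn : ‖m‖ ≤ 48) (hX : ‖x‖ ≤ X)
    (hε : 500 * X * ε ≤ 1) (hsub : Sub e g) : NS e (c • e + x) := by
  obtain ⟨u, hu, hgu⟩ := hsub
  obtain ⟨v, hv, hvr⟩ := hEr
  have hX0 : 0 ≤ X := (norm_nonneg _).trans hX
  have hε0 : 0 ≤ ε := (norm_nonneg _).trans hn1
  have hue := mul_of_star_mul he hu
  have hve := mul_of_star_mul he hv
  have hun := norm_le_one_of_star he hu
  have hvn := norm_le_one_of_star he hv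
  have hrv : r0 * v = v := by rw [← hvr, mul_assoc, hv, hve]
  have hsvr : star v * r0 = star v := by
    have := congrArg star hrv; rwa [star_mul, hr0.s] at this
  have hsug : star u * g = star u := by
    have := congrArg star hgu; rwa [star_mul, hg.s] at this
  have hesu : e * star u = star u := by
    have := congrArg star hue; rwa [star_mul, he.s] at this
  have hxse : star x * e = star x := by
    have := congrArg star hx1; rwa [star_mul, he.s] at this
  have heu : e * u = u := by rw [← hgu, ← mul_assoc, heg]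
  have hev : e * v = v := by rw [← hrv, ← mul_assoc, her0]
  -- `r0 g` is small
  have hr0g : r0 * g = r0 * star x * (x * m) := by
    have h1 : g = star x * x * m := by
      calc g = (g * (star x * x) * g) * m := hm2.symm
        _ = star x * x * (g * (g * m)) := by rw [hcomm]; simp only [mul_assoc]
        _ = star x * x * m := by rw [hgm, hgm]
    calc r0 * g = r0 * (star x * x * m) := by rw [← h1]
      _ = r0 * star x * (x * m) := by simp only [mul_assoc]
  have hr0gn : ‖r0 * g‖ ≤ ε * (X * 48) := by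
    rw [hr0g]
    have h1 : ‖r0 * star x‖ ≤ ε := by
      have : r0 * star x = star (x * r0) := by rw [star_mul, hr0.s]
      rw [this, norm_star]; exact hn1
    have h2 : ‖x * m‖ ≤ X * 48 := (norm_mul_le _ _).trans (mul_le_mul hX hmn (norm_nonneg _) hX0)
    exact (norm_mul_le _ _).trans (mul_le_mul h1 h2 (norm_nonneg _) hε0)
  refine NS.mix (u := u) (v := v) (b1 := star u * m * star x) (ε := ε) (K := 48 * X) he hu heu
    hv hev ?_ ?_ ?_ ?_ ?_ ?_ ?_ ?_
  · simp only [← mul_assoc, hesu]
  · rw [mul_assoc, hxse]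
  · calc star u * m * star x * (x * u) = star u * (m * g) * (star x * x) * (g * u) := by
            rw [hmg, hgu]; simp only [mul_assoc]
      _ = star u * (m * (g * (star x * x) * g)) * u := by simp only [mul_assoc]
      _ = e := by rw [hm1, hsug, hu]
  · have h1 : star v * u = star v * (r0 * g) * u := by
      rw [← mul_assoc, hsvr, mul_assoc, hgu]
    rw [h1]
    have h2 : ‖star v * (r0 * g) * u‖ ≤ 1 * (ε * (X * 48)) * 1 := by
      refine (norm_mul_le _ _).trans (mul_le_mul ?_ hun (norm_nonneg _) (by positivity))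
      refine (norm_mul_le _ _).trans (mul_le_mul ?_ hr0gn (norm_nonneg _) (by norm_num))
      rw [norm_star]; exact hvn
    linarith
  · rw [← hrv, ← mul_assoc]
    calc ‖x * r0 * v‖ ≤ ‖x * r0‖ * ‖v‖ := norm_mul_le _ _
      _ ≤ ε * 1 := mul_le_mul hn1 hvn (norm_nonneg _) hε0
      _ = ε := mul_one _
  · rw [← hsvr, mul_assoc]
    calc ‖star v * (r0 * x)‖ ≤ ‖star v‖ * ‖r0 * x‖ := norm_mul_le _ _
      _ ≤ 1 * ε := mul_le_mul (by rw [norm_star]; exact hvn) hn2 (norm_nonneg _) (by norm_num)
      _ = ε := one_mul _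
  · have h1 : ‖star u * m‖ ≤ 1 * 48 := by
      refine (norm_mul_le _ _).trans (mul_le_mul ?_ hmn (norm_nonneg _) (by norm_num))
      rw [norm_star]; exact hun
    have h2 : ‖star u * m * star x‖ ≤ 1 * 48 * X := by
      refine (norm_mul_le _ _).trans (mul_le_mul h1 ?_ (norm_nonneg _) (by norm_num))
      rw [norm_star]; exact hX
    linarith
  · nlinarith

/-- `T = c e + x` with `x` bounded below on a properly infinite `g`, almost zero on `r ~ g`, and
small off `g`. -/
theorem clean_block (hA : IsAWStar A) {e x T g m f r : A} {c : ℂ} {ε X : ℝ} (he : P e)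
    (hT : T = c • e + x) (hx1 : e * x = x) (hx2 : x * e = x) (hc : 1 / 2 ≤ ‖c‖)
    (hg : P g) (heg : e * g = g) (hgm : g * m = m) (hmg : m * g = m)
    (hm1 : m * (g * (star x * x) * g) = g) (hmn : ‖m‖ ≤ 48) (hn : ‖x * (e - g)‖ ≤ 1 / 4)
    (hf : P f) (hef : e * f = f) (hfg : f * g = g) (hfx : f * (x * g) = x * g) (hsf : Sub f g)
    (hr : P r) (her : e * r = r) (hfr : f * r = 0) (hEr : Equ g r)
    (hn1 : ‖x * r‖ ≤ ε) (hn2 : ‖r * x‖ ≤ ε) (hPI : PI g) (hX : ‖x‖ ≤ X) (hX1 : 1 ≤ X)
    (hε : 2500 * X ^ 2 * ε ≤ 1) : CleanIn e T := by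
  have hε0 : 0 ≤ ε := (norm_nonneg _).trans hn1
  have hrf := hf.orth hr hfr
  have hG : P (f + r) := hf.add hr hfr
  have hgf : g * f = g := hg.swap hf hfg
  have hgr : g * r = 0 := by rw [← hgf, mul_assoc, hfr, mul_zero]
  have hrg : r * g = 0 := hg.orth hr hgr
  have hGg : (f + r) * g = g := by rw [add_mul, hfg, hrg, add_zero]
  have hGr : (f + r) * r = r := by rw [add_mul, hfr, hr.i, zero_add]
  have hrxg : r * (x * g) = 0 := by rw [← hfx, ← mul_assoc, hrf, zero_mul]
  have hGxg : (f + r) * (x * g) = x * g := by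
    rw [add_mul, hfx, hrxg, add_zero]
  have heG : e * (f + r) = f + r := by rw [mul_add, hef, her]
  have hsG : Sub (f + r) g := PI.sub_add hg hPI hsf (hEr.symm.sub hr)
  set G := f + r with hGd
  clear_value G
  have hGe := hG.swap he heG
  have hEG : Equ G g := schroeder hA hG hg hGg hsG
  have hPIG : PI G := hPI.equ hg hEG.symm
  have hEGr : Equ G r := hEG.trans hG hEr
  obtain ⟨u, hu, hug⟩ := hEG
  obtain ⟨v, hv, hvr⟩ := hEGr
  have huG := mul_of_star_mul hG hu
  have hvG := mul_of_star_mul hG hv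
  have hun := norm_le_one_of_star hG hu
  have hvn := norm_le_one_of_star hG hv
  have hgu : g * u = u := by rw [← hug, mul_assoc, hu, huG]
  have hrv : r * v = v := by rw [← hvr, mul_assoc, hv, hvG]
  have hGu : G * u = u := by rw [← hgu, ← mul_assoc, hGg]
  have hGv : G * v = v := by rw [← hrv, ← mul_assoc, hGr]
  have hsug : star u * g = star u := by
    have := congrArg star hgu; rwa [star_mul, hg.s] at this
  have hsvr : star v * r = star v := by
    have := congrArg star hrv; rwa [star_mul, hr.s] at this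
  have hsvG : star v * G = star v := by
    have := congrArg star hGv; rwa [star_mul, hG.s] at this
  have hGsu : G * star u = star u := by
    have := congrArg star huG; rwa [star_mul, hG.s] at this
  have hgG : g * G = g := hg.swap hG hGg
  have hxv : ‖x * v‖ ≤ ε := by
    rw [← hrv, ← mul_assoc]
    calc ‖x * r * v‖ ≤ ‖x * r‖ * ‖v‖ := norm_mul_le _ _
      _ ≤ ε * 1 := mul_le_mul hn1 hvn (norm_nonneg _) hε0
      _ = ε := mul_one _
  have hvx : ‖star v * x‖ ≤ ε := by
    rw [← hsvr, mul_assoc]
    calc ‖star v * (r * x)‖ ≤ ‖star v‖ * ‖r * x‖ := norm_mul_le _ _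
      _ ≤ 1 * ε := mul_le_mul (by rw [norm_star]; exact hvn) hn2 (norm_nonneg _) (by norm_num)
      _ = ε := one_mul _
  have hX0 : 0 ≤ X := by linarith
  refine clean_schur he hG heG hT hx1 hx2 hc ?_ ?_
  · have e1 : x * (e - G) = x * (e - g) * (e - G) := by
      rw [mul_assoc]
      congr 1
      rw [sub_mul, mul_sub, mul_sub, he.i, heG, hg.swap he heg, hgG]; abel
    rw [e1]
    have hk : P (e - G) := hG.sub he heG
    calc ‖x * (e - g) * (e - G)‖ ≤ ‖x * (e - g)‖ * ‖e - G‖ := norm_mul_le _ _
      _ ≤ (1 / 4) * 1 := mul_le_mul hn hk.norm_le (norm_nonneg _) (by norm_num)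
      _ = 1 / 4 := by norm_num
  · intro m' h1 h2 h3
    have hm'G : m' * G = 0 := by rw [← h2, mul_assoc, sub_mul, heG, hG.i, sub_self, mul_zero]
    set xt := G * x * G - G * x * m' * x * G with hxt
    have hGxt : G * xt = xt := by
      rw [hxt, mul_sub]; simp only [← mul_assoc, hG.i]
    have hxtG : xt * G = xt := by
      rw [hxt, sub_mul]; simp only [mul_assoc, hG.i]
    have hxtu : xt * u = x * g * u := by
      have k1 : G * x * G * u = x * g * u := by
        calc G * x * G * u = G * (x * (G * u)) := by simp only [mul_assoc]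
          _ = G * (x * (g * u)) := by rw [hGu, hgu]
          _ = (G * (x * g)) * u := by simp only [mul_assoc]
          _ = x * g * u := by rw [hGxg]
      have k2 : G * x * m' * x * G * u = 0 := by
        calc G * x * m' * x * G * u = G * x * m' * (x * (G * u)) := by simp only [mul_assoc]
          _ = G * x * m' * (x * (g * u)) := by rw [hGu, hgu]
          _ = G * x * m' * ((x * g) * u) := by simp only [mul_assoc]
          _ = G * x * m' * ((G * (x * g)) * u) := by rw [hGxg]
          _ = G * x * ((m' * G) * (x * g) * u) := by simp only [mul_assoc]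
          _ = 0 := by rw [hm'G, zero_mul, zero_mul, mul_zero]
      rw [hxt, sub_mul, k1, k2, sub_zero]
    have hxtv : ‖xt * v‖ ≤ ε * (1 + 4 * X) := by
      have k1 : xt * v = G * (x * v) - G * x * (m' * (x * v)) := by
        rw [hxt, sub_mul]; simp only [mul_assoc, hGv]
      rw [k1]
      have k2 : ‖G * (x * v)‖ ≤ 1 * ε :=
        (norm_mul_le _ _).trans (mul_le_mul hG.norm_le hxv (norm_nonneg _) (by norm_num))
      have k3 : ‖G * x‖ ≤ 1 * X :=
        (norm_mul_le _ _).trans (mul_le_mul hG.norm_le hX (norm_nonneg _) (by norm_num))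
      have k4 : ‖m' * (x * v)‖ ≤ 4 * ε :=
        (norm_mul_le _ _).trans (mul_le_mul h3 hxv (norm_nonneg _) (by norm_num))
      have k5 : ‖G * x * (m' * (x * v))‖ ≤ 1 * X * (4 * ε) :=
        (norm_mul_le _ _).trans (mul_le_mul k3 k4 (norm_nonneg _) (by linarith))
      calc _ ≤ ‖G * (x * v)‖ + ‖G * x * (m' * (x * v))‖ := norm_sub_le _ _
        _ ≤ 1 * ε + 1 * X * (4 * ε) := add_le_add k2 k5
        _ = ε * (1 + 4 * X) := by ring
    have hvxt : ‖star v * xt‖ ≤ ε * (1 + 4 * X) := by
      have k1 : star v * xt = star v * x * G - star v * x * m' * (x * G) := by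
        rw [hxt, mul_sub]; simp only [← mul_assoc, hsvG]
      rw [k1]
      have k2 : ‖star v * x * G‖ ≤ ε * 1 :=
        (norm_mul_le _ _).trans (mul_le_mul hvx hG.norm_le (norm_nonneg _) hε0)
      have k3 : ‖x * G‖ ≤ X * 1 :=
        (norm_mul_le _ _).trans (mul_le_mul hX hG.norm_le (norm_nonneg _) hX0)
      have k4 : ‖star v * x * m'‖ ≤ ε * 4 :=
        (norm_mul_le _ _).trans (mul_le_mul hvx h3 (norm_nonneg _) hε0)
      have k5 : ‖star v * x * m' * (x * G)‖ ≤ ε * 4 * (X * 1) :=
        (norm_mul_le _ _).trans (mul_le_mul k4 k3 (norm_nonneg _) (by positivity))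
      calc _ ≤ ‖star v * x * G‖ + ‖star v * x * m' * (x * G)‖ := norm_sub_le _ _
        _ ≤ ε * 1 + ε * 4 * (X * 1) := add_le_add k2 k5
        _ = ε * (1 + 4 * X) := by ring
    have hNS : NS G (c • G + xt) := by
      refine NS.mix (u := u) (v := v) (b1 := star u * m * star x * G) (ε := ε * (1 + 4 * X))
        (K := 48 * X) hG hu hGu hv hGv ?_ ?_ ?_ ?_ hxtv hvxt ?_ ?_
      · simp only [← mul_assoc, hGsu]
      · rw [mul_assoc, hG.i]
      · rw [hxtu]
        calc star u * m * star x * G * (x * g * u) =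
            star u * m * star x * ((G * (x * g)) * u) := by simp only [mul_assoc]
          _ = star u * (m * g) * (star x * x) * (g * u) := by
              rw [hGxg, hmg]; simp only [mul_assoc]
          _ = star u * (m * (g * (star x * x) * g)) * u := by simp only [mul_assoc]
          _ = G := by rw [hm1, hsug, hu]
      · have : star v * u = 0 := by
          rw [← hsvr, ← hgu, mul_assoc, ← mul_assoc r, hrg, zero_mul, mul_zero]
        rw [this, norm_zero]; norm_num
      · have k1 : ‖star u * m‖ ≤ 1 * 48 := by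
          refine (norm_mul_le _ _).trans (mul_le_mul ?_ hmn (norm_nonneg _) (by norm_num))
          rw [norm_star]; exact hun
        have k2 : ‖star u * m * star x‖ ≤ 1 * 48 * X := by
          refine (norm_mul_le _ _).trans (mul_le_mul k1 ?_ (norm_nonneg _) (by norm_num))
          rw [norm_star]; exact hX
        have k3 : ‖star u * m * star x * G‖ ≤ 1 * 48 * X * 1 :=
          (norm_mul_le _ _).trans (mul_le_mul k2 hG.norm_le (norm_nonneg _) (by linarith))
        linarith
      · have k1 : 9 * (48 * X) * (ε * (1 + 4 * X)) ≤ 2160 * X ^ 2 * ε := by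
          have : 0 ≤ 432 * X * ε * (X - 1) :=
            mul_nonneg (by positivity) (by linarith)
          nlinarith
        nlinarith [sq_nonneg X]
    exact hNS.clean hA hG hPIG (by rw [mul_add, mul_smul_comm, hG.i, hGxt])
      (by rw [add_mul, smul_mul_assoc, hG.i, hxtG])

/-- multiplying a small element by a central projection -/
theorem Cen.norm_le' {z a : A} {ε : ℝ} (hz : Cen z) (h : ‖a‖ ≤ ε) : ‖z * a‖ ≤ ε :=
  (hz.norm_le a).trans h

theorem clean_near_aux (hA : IsAWStar A) {e T x r0 : A} {c : ℂ} {ε X : ℝ} (he : P e)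
    (hPI : PI e) (hT : T = c • e + x) (hx1 : e * x = x) (hx2 : x * e = x) (hc : 1 / 2 ≤ ‖c‖)
    (hr0 : P r0) (her0 : e * r0 = r0) (hEr : Equ e r0)
    (hn1 : ‖x * r0‖ ≤ ε) (hn2 : ‖r0 * x‖ ≤ ε) (hX : ‖x‖ ≤ X) (hX1 : 1 ≤ X)
    (hε : 2500 * X ^ 2 * ε ≤ 1) : CleanIn e T := by
  have hε0 : 0 ≤ ε := (norm_nonneg _).trans hn1
  have hexs : e * star x = star x := by
    have := congrArg star hx2; rwa [star_mul, he.s] at this
  have hxse : star x * e = star x := by
    have := congrArg star hx1; rwa [star_mul, he.s] at this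
  have hexxe : e * (star x * x) * e = star x * x := by
    rw [← mul_assoc, hexs, mul_assoc, hx2]
  obtain ⟨g, m, hg, heg, hgm, hmg, hcomm, hm1, hm2, hmn, hn⟩ :=
    cutN hA x he (ε := 1 / 4) (by norm_num)
  have hmn' : ‖m‖ ≤ 48 := by norm_num at hmn; exact hmn
  have hcomm' : g * (star x * x) = star x * x * g := hcomm _ hexxe.symm
  have hge := hg.swap he heg
  -- the join `f` of `g` and the range of `x g`
  obtain ⟨p, q, hp, hq, hep, heq, hEpq, hyp, hqy, hy1, hy2⟩ := rplp hA he hPI
    (x := (e - g) * x * g) (by rw [← mul_assoc, ← mul_assoc, mul_sub, he.i, heg])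
    (by rw [mul_assoc, hge])
  set y := (e - g) * x * g with hyd
  have hgp : g * p = p := by
    have h1 : y * (e - g) = 0 := by rw [hyd, mul_assoc, mul_sub, hge, hg.i, sub_self, mul_zero]
    have h2 := hy1 _ h1
    rw [mul_sub, hp.swap he hep, sub_eq_zero] at h2
    exact hp.swap' hg h2.symm
  have hgq : g * q = 0 := by
    apply hy2
    rw [hyd, ← mul_assoc, ← mul_assoc, mul_sub, hge, hg.i, sub_self, zero_mul, zero_mul]
  have hqg : q * g = 0 := hg.orth hq hgq
  have hgy : g * y = 0 := by
    rw [hyd, ← mul_assoc, ← mul_assoc, mul_sub, hge, hg.i, sub_self, zero_mul, zero_mul]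
  have hf : P (g + q) := hg.add hq hgq
  set f := g + q with hfd
  have hef : e * f = f := by rw [hfd, mul_add, heg, heq]
  have hfg : f * g = g := by rw [hfd, add_mul, hg.i, hqg, add_zero]
  have hxg : x * g = g * x * g + y := by
    rw [hyd, sub_mul, sub_mul, hx1]; abel
  have hfx : f * (x * g) = x * g := by
    have h1 : f * (g * x * g) = g * x * g := by rw [← mul_assoc, ← mul_assoc, hfg]
    have h2 : f * y = y := by rw [hfd, add_mul, hgy, hqy, zero_add]
    rw [hxg, mul_add, h1, h2]
  -- the part of `r0` orthogonal to `f`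
  have hfe := hf.swap he hef
  have hr0e := hr0.swap he her0
  obtain ⟨p2, q2, hp2, hq2, hep2, heq2, hEpq2, hyp2, hqy2, hy21, hy22⟩ := rplp hA he hPI
    (x := f * r0) (by rw [← mul_assoc, hef]) (by rw [mul_assoc, hr0e])
  have hr0p2 : r0 * p2 = p2 := by
    have h1 : f * r0 * (e - r0) = 0 := by
      rw [mul_assoc, mul_sub, hr0e, hr0.i, sub_self, mul_zero]
    have h2 := hy21 _ h1
    rw [mul_sub, hp2.swap he hep2, sub_eq_zero] at h2
    exact hp2.swap' hr0 h2.symm
  have hfq2 : f * q2 = q2 := by
    have h1 : (e - f) * (f * r0) = 0 := by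
      rw [← mul_assoc, sub_mul, hef, hf.i, sub_self, zero_mul]
    have h2 := hy22 _ h1
    rw [sub_mul, heq2, sub_eq_zero] at h2
    exact h2.symm
  have hr1 : P (r0 - p2) := hp2.sub hr0 hr0p2
  have hp2r1 : p2 * (r0 - p2) = 0 := by
    rw [mul_sub, hp2.swap hr0 hr0p2, hp2.i, sub_self]
  have hfr1 : f * (r0 - p2) = 0 := by
    have h1 : f * p2 = f * r0 := by
      calc f * p2 = f * r0 * p2 := by rw [mul_assoc, hr0p2]
        _ = f * r0 := hyp2
    rw [mul_sub, h1, sub_self]
  have hr0r1 : r0 * (r0 - p2) = r0 - p2 := by rw [mul_sub, hr0.i, hr0p2]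
  have her1 : e * (r0 - p2) = r0 - p2 := by rw [mul_sub, her0, hep2]
  set r1 := r0 - p2 with hr1d
  -- the property to be proved on central pieces
  set Q : A → Prop := fun z => CleanIn (z * e) (z * T) with hQd
  have hQ : Additive' Q := clean_additive e T
  have hPIr : PI r0 := hPI.equ he hEr
  have hTz : ∀ z : A, z * T = c • (z * e) + z * x := fun z => by
    rw [hT, mul_add, mul_smul_comm]
  have h500 : 500 * X * ε ≤ 1 := by
    have h1 : 500 * X * ε ≤ 2500 * X ^ 2 * ε := by
      have : 0 ≤ X * ε * (2500 * X - 500) := by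
        apply mul_nonneg (by positivity); linarith
      nlinarith
    linarith
  -- the case of a large `g`
  have hbig : ∀ w, Cen w → Sub (w * e) g → Q w := by
    intro w hw hs
    have hwx1 : w * e * (w * x) = w * x := by rw [hw.mul_mul, hx1]
    have hwx2 : w * x * (w * e) = w * x := by rw [hw.mul_mul, hx2]
    have hsx : star (w * x) * (w * x) = w * (star x * x) := by rw [hw.star_mul, hw.mul_mul]
    have hNS : NS (w * e) (c • (w * e) + w * x) := by
      refine NS.of_big (r0 := w * r0) (g := w * g) (m := w * m) (ε := ε) (X := X) (hw.proj he)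
        hwx1 (hw.proj hr0) (by rw [hw.mul_mul, her0]) (Equ.cmul hw hEr)
        (by rw [hw.mul_mul]; exact hw.norm_le' hn1) (by rw [hw.mul_mul]; exact hw.norm_le' hn2)
        (hw.proj hg) (by rw [hw.mul_mul, heg]) ?_ (by rw [hw.mul_mul, hgm])
        (by rw [hw.mul_mul, hmg]) ?_ ?_ (hw.norm_le' hmn') (hw.norm_le' hX) h500 ?_
      · rw [hsx, hw.mul_mul, hw.mul_mul, hcomm']
      · rw [hsx, hw.mul_mul, hw.mul_mul, hw.mul_mul, hm1]
      · rw [hsx, hw.mul_mul, hw.mul_mul, hw.mul_mul, hm2]
      · have := Sub.cmul hw hs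
        rwa [← mul_assoc, hw.1.i] at this
    rw [← hTz] at hNS
    exact hNS.clean hA (hw.proj he) (PI.cmul hw hPI)
      (by rw [hw.mul_mul, hT, mul_add, mul_smul_comm, he.i, hx1])
      (by rw [hw.mul_mul, hT, add_mul, smul_mul_assoc, he.i, hx2])
  have hmain : Q 1 := by
    refine big_elim hA hr0 hPIr hp2 hr1 hp2r1 hQ Cen.one (by
      rw [one_mul, hr1d, add_sub_cancel]; exact Sub.refl hr0) ?_ ?_
    · intro w hw _ hs
      have h1 : Sub (w * e) (g + q) := by
        have h2 : Sub (w * e) (w * r0) := (Equ.cmul hw hEr).sub (hw.proj he)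
        exact ((h2.trans hs).trans (hEpq2.sub hp2)).mono hfq2
      refine big_elim hA he hPI hg hq hgq hQ hw h1 ?_ ?_
      · intro w' hw' _ hs'
        exact hbig w' hw' hs'
      · intro w' hw' _ hs'
        exact hbig w' hw' ((hs'.trans (hEpq.symm.sub hq)).mono hgp)
    · intro w hw _ hs
      obtain ⟨h, hh, hfin, hPIg⟩ := ghalving hA hg
      have hwe : Sub (w * e) r1 := by
        have h2 : Sub (w * e) (w * r0) := (Equ.cmul hw hEr).sub (hw.proj he)
        exact h2.trans hs
      refine hQ w h hw hh ?_ ?_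
      · -- finite case
        have hz : Cen (w * h) := hw.mul hh
        set z := w * h with hzd
        have hzg : P (z * g) := hz.proj hg
        have hfinz : ¬ Infinite' (z * g) := fin_sub (hh.proj hg) hzg (by
          rw [hzd, hw.2 h, mul_assoc h w g, hh.mul_mul, hw.swap, hg.i]) hfin
        refine clean_schur (x := z * x) (G := z * g) (hz.proj he) hzg (by rw [hz.mul_mul, heg])
          (hTz z) (by rw [hz.mul_mul, hx1]) (by rw [hz.mul_mul, hx2]) hc ?_ ?_
        · rw [← mul_sub, hz.mul_mul]
          exact hz.norm_le' hn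
        · intro m' _ _ _
          have hGG := hzg.i
          refine gclean_of_finite hA hzg hfinz ?_ ?_
          · rw [mul_add, mul_smul_comm, hGG, mul_sub]
            simp only [← mul_assoc, hGG]
          · rw [add_mul, smul_mul_assoc, hGG, sub_mul]
            simp only [mul_assoc, hGG]
      · -- properly infinite case
        have hz : Cen (w * (1 - h)) := hw.mul hh.compl
        set z := w * (1 - h) with hzd
        have hzg : P (z * g) := hz.proj hg
        have hPIz : PI (z * g) := by
          rw [hzd, mul_assoc]; exact PI.cmul hw hPIg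
        have hsr : Sub (z * g) (z * r1) := by
          have h1 : Sub (z * g) (z * e) := Sub.of_le hzg (by rw [hz.mul_mul, heg])
          have h2 : Sub (z * e) r1 := by
            have h3 := Sub.cmul hh.compl hwe
            have h4 : z * e = (1 - h) * (w * e) := by rw [hzd, hw.2, mul_assoc]
            rw [h4]; exact Sub.of_right hh.compl hr1 h3
          have h5 := Sub.cmul hz (h1.trans h2)
          rwa [← mul_assoc, hz.1.i] at h5
        rw [Sub.iff hzg] at hsr
        obtain ⟨r, hr, hr1r, hEr'⟩ := hsr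
        have hsx : star (z * x) * (z * x) = z * (star x * x) := by rw [hz.star_mul, hz.mul_mul]
        have hr0r : r0 * r = r := by rw [← hr1r, hz.left, hz.swap, ← mul_assoc r0, hr0r1]
        have her : z * e * r = r := by
          rw [← hr1r, ← mul_assoc (z * e) (z * r1), hz.mul_mul, her1]
        have hrr0 := hr.swap hr0 hr0r
        have hzf : z * f * r = 0 := by
          rw [← hr1r, ← mul_assoc (z * f) (z * r1), hz.mul_mul, hfr1, mul_zero, zero_mul]
        refine clean_block hA (g := z * g) (m := z * m) (f := z * f) (r := r) (x := z * x)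
          (ε := ε) (X := X) (hz.proj he) (hTz z) (by rw [hz.mul_mul, hx1])
          (by rw [hz.mul_mul, hx2]) hc hzg (by rw [hz.mul_mul, heg]) (by rw [hz.mul_mul, hgm])
          (by rw [hz.mul_mul, hmg]) ?_ (hz.norm_le' hmn') ?_ (hz.proj hf)
          (by rw [hz.mul_mul, hef]) (by rw [hz.mul_mul, hfg]) ?_ ?_ hr her hzf hEr' ?_ ?_
          hPIz (hz.norm_le' hX) hX1 hε
        · rw [hsx, hz.mul_mul, hz.mul_mul, hz.mul_mul, hm1]
        · rw [← mul_sub, hz.mul_mul]
          exact hz.norm_le' hn
        · rw [hz.mul_mul, hz.mul_mul, hfx]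
        · rw [hfd, mul_add]
          refine PI.sub_add hzg hPIz (Sub.refl hzg) ?_
          have h1 : Sub (z * q) (z * p) := Sub.cmul hz (hEpq.symm.sub hq)
          exact h1.mono (by rw [hz.mul_mul, hgp])
        · rw [← hr0r, ← mul_assoc, hz.left]
          calc ‖z * (x * r0) * r‖ ≤ ‖z * (x * r0)‖ * ‖r‖ := norm_mul_le _ _
            _ ≤ ε * 1 := mul_le_mul (hz.norm_le' hn1) hr.norm_le (norm_nonneg _) hε0
            _ = ε := mul_one _
        · rw [← hrr0, mul_assoc, hz.swap]
          calc ‖r * (z * (r0 * x))‖ ≤ ‖r‖ * ‖z * (r0 * x)‖ := norm_mul_le _ _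
            _ ≤ 1 * ε := mul_le_mul hr.norm_le (hz.norm_le' hn2) (norm_nonneg _) (by norm_num)
            _ = ε := one_mul _
  have := hmain
  simp only [hQd, one_mul] at this
  exact this

/-- An element which is almost a scalar on a projection equivalent to `e` is clean. -/
theorem clean_near (hA : IsAWStar A) {e T x r0 : A} {c : ℂ} {ε X : ℝ} (he : P e)
    (hPI : PI e) (hT : T = c • e + x) (hx1 : e * x = x) (hx2 : x * e = x)
    (hr0 : P r0) (her0 : e * r0 = r0) (hEr : Equ e r0)
    (hn1 : ‖x * r0‖ ≤ ε) (hn2 : ‖r0 * x‖ ≤ ε) (hX : ‖x‖ ≤ X) (hX1 : 1 ≤ X)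
    (hε : 2500 * X ^ 2 * ε ≤ 1) : CleanIn e T := by
  by_cases hc : 1 / 2 ≤ ‖c‖
  · exact clean_near_aux hA he hPI hT hx1 hx2 hc hr0 her0 hEr hn1 hn2 hX hX1 hε
  · apply CleanIn.compl he.i
    refine clean_near_aux hA (x := -x) (c := 1 - c) he hPI ?_ (by rw [mul_neg, hx1])
      (by rw [neg_mul, hx2]) ?_ hr0 her0 hEr (by rw [neg_mul, norm_neg]; exact hn1)
      (by rw [mul_neg, norm_neg]; exact hn2) (by rw [norm_neg]; exact hX) hX1 hε
    · rw [hT, sub_smul, one_smul]; abel
    · rw [not_le] at hc
      have : (1 : ℝ) ≤ ‖(1 : ℂ) - c‖ + ‖c‖ := by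
        calc (1 : ℝ) = ‖(1 : ℂ)‖ := by norm_num
          _ = ‖(1 - c) + c‖ := by ring_nf
          _ ≤ _ := norm_add_le _ _
      linarith

end Pool.Agent.H54.AW
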